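import Pool.Agent.ELN.Defs

/-! # Module Bas: basic consequences of the Steinberg relations -/

set_option autoImplicit false

universe u v w u'

namespace Pool.ELN

namespace StSys

variable {ι : Type u} {R : Type v} {G : Type w} [Ring R] [Group G] (S : StSys ι R G)

theorem x_zero {i j : ι} (h : i ≠ j) : S.x i j 0 = 1 := by
  have := S.add i j h 0 0
  rw [add_zero] at this
  exact (mul_eq_left.mp this.symm)

theorem x_neg {i j : ι} (h : i ≠ j) (r : R) : S.x i j (-r) = (S.x i j r)⁻¹ := by
  have := S.add i j h (-r) r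
  rw [neg_add_cancel, S.x_zero h] at this
  exact eq_inv_of_mul_eq_one_left this.symm

theorem x_sub {i j : ι} (h : i ≠ j) (r s : R) :
    S.x i j (r - s) = S.x i j r * (S.x i j s)⁻¹ := by
  rw [sub_eq_add_neg, S.add i j h, S.x_neg h]

theorem x_nsmul {i j : ι} (h : i ≠ j) (m : ℕ) (r : R) : S.x i j (m • r) = S.x i j r ^ m := by
  induction m with
  | zero => rw [zero_smul, S.x_zero h, pow_zero]
  | succ m ih => rw [succ_nsmul, S.add i j h, ih, pow_succ]

theorem x_comm {i j : ι} (h : i ≠ j) (r s : R) : Commute (S.x i j r) (S.x i j s) := by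
  show _ * _ = _ * _
  rw [← S.add i j h, ← S.add i j h, add_comm]

/-- conjugation of `x j k` by `x i j` -/
theorem conj1 {i j k : ι} (h1 : i ≠ j) (h2 : j ≠ k) (h3 : i ≠ k) (r s : R) :
    S.x i j r * S.x j k s * (S.x i j r)⁻¹ = S.x i k (r * s) * S.x j k s := by
  rw [← S.mul i j k h1 h2 h3]
  group

/-- conjugation of `x i j` by `x j k` -/
theorem conj2 {i j k : ι} (h1 : i ≠ j) (h2 : j ≠ k) (h3 : i ≠ k) (r s : R) :
    S.x j k s * S.x i j r * (S.x j k s)⁻¹ = S.x i k (-(r * s)) * S.x i j r := by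
  rw [S.x_neg h3, ← S.mul i j k h1 h2 h3]
  group

theorem conj3 {i j k l : ι} (h1 : i ≠ j) (h2 : k ≠ l) (h3 : i ≠ l) (h4 : j ≠ k) (r s : R) :
    S.x i j r * S.x k l s * (S.x i j r)⁻¹ = S.x k l s := by
  rw [(S.comm i j k l h1 h2 h3 h4 r s).eq]
  group

theorem mem_X {i j : ι} (h : i ≠ j) (g : G) : g ∈ S.X i j ↔ ∃ r, g = S.x i j r := by
  constructor
  · intro hg
    induction hg using Subgroup.closure_induction with
    | mem x hx => exact hx
    | one => exact ⟨0, (S.x_zero h).symm⟩
    | mul a b _ _ ha hb =>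
      obtain ⟨r, rfl⟩ := ha
      obtain ⟨s, rfl⟩ := hb
      exact ⟨r + s, (S.add i j h r s).symm⟩
    | inv a _ ha =>
      obtain ⟨r, rfl⟩ := ha
      exact ⟨-r, (S.x_neg h r).symm⟩
  · rintro ⟨r, rfl⟩
    exact Subgroup.subset_closure ⟨r, rfl⟩

theorem x_mem_X (i j : ι) (r : R) : S.x i j r ∈ S.X i j :=
  Subgroup.subset_closure ⟨r, rfl⟩

theorem X_finite [Finite R] {i j : ι} (h : i ≠ j) : Finite (S.X i j) := by
  have : (S.X i j : Set G) = Set.range (fun r => S.x i j r) := by
    ext g
    simp only [SetLike.mem_coe, Set.mem_range]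
    rw [S.mem_X h]
    constructor
    · rintro ⟨r, rfl⟩; exact ⟨r, rfl⟩
    · rintro ⟨r, rfl⟩; exact ⟨r, rfl⟩
  have h2 : Set.Finite (S.X i j : Set G) := by
    rw [this]; exact Set.finite_range _
  exact h2

/-- reindexing a system -/
def reindex {ι' : Type u'} (e : ι' → ι) (he : Function.Injective e) : StSys ι' R G where
  x := fun i j r => S.x (e i) (e j) r
  add := fun i j h r s => S.add _ _ (he.ne h) r s
  mul := fun i j k h1 h2 h3 r s => S.mul _ _ _ (he.ne h1) (he.ne h2) (he.ne h3) r s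
  comm := fun i j k l h1 h2 h3 h4 r s =>
    S.comm _ _ _ _ (he.ne h1) (he.ne h2) (he.ne h3) (he.ne h4) r s

/-- image of a system under a homomorphism -/
def map {G' : Type w} [Group G'] (φ : G →* G') : StSys ι R G' where
  x := fun i j r => φ (S.x i j r)
  add := fun i j h r s => by rw [S.add i j h, map_mul]
  mul := fun i j k h1 h2 h3 r s => by
    rw [← S.mul i j k h1 h2 h3, map_mul, map_mul, map_mul, map_inv, map_inv]
  comm := fun i j k l h1 h2 h3 h4 r s => (S.comm i j k l h1 h2 h3 h4 r s).map φ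

/-- an element normalizes the finite root subgroups as soon as it maps them into themselves -/
theorem mem_H [Finite R] (g : G)
    (hg : ∀ i j, i ≠ j → ∀ r, ∃ s, g * S.x i j r * g⁻¹ = S.x i j s) : g ∈ S.H := by
  unfold H
  simp only [Subgroup.mem_iInf]
  intro i j h
  have hfin := S.X_finite h
  have hmap : ∀ y : G, y ∈ S.X i j → g * y * g⁻¹ ∈ S.X i j := by
    intro y hy
    obtain ⟨r, rfl⟩ := (S.mem_X h y).1 hy
    obtain ⟨s, hs⟩ := hg i j h r
    rw [hs]
    exact S.x_mem_X i j s
  intro y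
  constructor
  · exact hmap y
  · intro hy
    let F : S.X i j → S.X i j := fun z => ⟨g * z.1 * g⁻¹, hmap z.1 z.2⟩
    have hinj : Function.Injective F := by
      intro a b hab
      have := congrArg Subtype.val hab
      simp only [F] at this
      exact Subtype.ext (by simpa using this)
    obtain ⟨z, hz⟩ := (Finite.surjective_of_injective hinj) ⟨_, hy⟩
    have := congrArg Subtype.val hz
    simp only [F] at this
    have h2 : z.1 = y := by simpa using this
    rw [← h2]
    exact z.2

theorem H_conj {i j : ι} (h : i ≠ j) (g : G) (hg : g ∈ S.H) (r : R) :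
    ∃ s, g * S.x i j r * g⁻¹ = S.x i j s := by
  unfold H at hg
  simp only [Subgroup.mem_iInf] at hg
  have h1 := (hg i j h (S.x i j r)).1 (S.x_mem_X i j r)
  exact (S.mem_X h _).1 h1

end StSys

end Pool.ELN
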