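import Mathlib

/-! # Steinberg systems: definitions (squad ELN, MP_9d3768_al) -/

set_option autoImplicit false

universe u v w

namespace Pool.ELN

/-- A system of elements `x i j r` (`i ≠ j`, `r ∈ R`) of a group satisfying the Steinberg relations.
The values `x i i r` play no role. -/
structure StSys (ι : Type u) (R : Type v) (G : Type w) [Ring R] [Group G] where
  x : ι → ι → R → G
  add : ∀ i j, i ≠ j → ∀ r s, x i j (r + s) = x i j r * x i j s
  mul : ∀ i j k, i ≠ j → j ≠ k → i ≠ k → ∀ r s,
    x i j r * x j k s * (x i j r)⁻¹ * (x j k s)⁻¹ = x i k (r * s)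
  comm : ∀ i j k l, i ≠ j → k ≠ l → i ≠ l → j ≠ k → ∀ r s, Commute (x i j r) (x k l s)

namespace StSys

variable {ι : Type u} {R : Type v} {G : Type w} [Ring R] [Group G] (S : StSys ι R G)

/-- The elements of the system generate the group. -/
def Gen : Prop := Subgroup.closure {g | ∃ i j r, i ≠ j ∧ g = S.x i j r} = ⊤

/-- root subgroup -/
def X (i j : ι) : Subgroup G := Subgroup.closure {g | ∃ r, g = S.x i j r}

/-- rank one subgroup -/
def L (i j : ι) : Subgroup G := S.X i j ⊔ S.X j i

/-- the elements normalizing all root subgroups -/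
def H : Subgroup G := ⨅ (i : ι) (j : ι) (_ : i ≠ j), Subgroup.normalizer (S.X i j : Set G)

end StSys

namespace StSys

variable {n : ℕ} {R : Type v} {G : Type w} [Ring R] [Group G] (S : StSys (Fin n) R G)

/-- upper unitriangular subgroup -/
def U : Subgroup G := Subgroup.closure {g | ∃ i j r, i < j ∧ g = S.x i j r}

/-- lower unitriangular subgroup -/
def V : Subgroup G := Subgroup.closure {g | ∃ i j r, j < i ∧ g = S.x i j r}

/-- the root elements of `U` different from those of the pair `(i, j)` -/
def U' (i j : Fin n) : Subgroup G :=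
  Subgroup.closure {g | ∃ k l r, k < l ∧ ¬ (k = i ∧ l = j) ∧ g = S.x k l r}

/-- the root elements of `V` different from those of the pair `(j, i)` -/
def V' (i j : Fin n) : Subgroup G :=
  Subgroup.closure {g | ∃ k l r, l < k ∧ ¬ (k = j ∧ l = i) ∧ g = S.x k l r}

end StSys

end Pool.ELN
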