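import Pool.Agent.ELN.Bas

/-! # Module El: the elementary group `E_n(R)` -/

set_option autoImplicit false

universe v w

namespace Pool.ELN

open Matrix

variable {n : ℕ} {R : Type v} [Ring R]

/-- The elementary group `E_n(R)`: the subgroup of `GL_n(R)` (the units of the ring of `n × n`
matrices) generated by the elementary matrices `1 + r E_ij`, `i ≠ j`, `r ∈ R`. -/
def elementaryGroup (n : ℕ) (R : Type v) [Ring R] : Subgroup (Matrix (Fin n) (Fin n) R)ˣ :=
  Subgroup.closure {g | ∃ (i j : Fin n) (r : R), i ≠ j ∧
    (g : Matrix (Fin n) (Fin n) R) = 1 + Matrix.single i j r}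

/-- elementary matrices as units -/
def tv {i j : Fin n} (h : i ≠ j) (r : R) : (Matrix (Fin n) (Fin n) R)ˣ where
  val := 1 + Matrix.single i j r
  inv := 1 + Matrix.single i j (-r)
  val_inv := by
    rw [add_mul, mul_add, mul_add, Matrix.single_mul_single_of_ne _ _ _ _ h.symm, one_mul, one_mul,
      mul_one, add_zero, add_assoc, ← Matrix.single_add, neg_add_cancel, Matrix.single_zero,
      add_zero]
  inv_val := by
    rw [add_mul, mul_add, mul_add, Matrix.single_mul_single_of_ne _ _ _ _ h.symm, one_mul, one_mul,
      mul_one, add_zero, add_assoc, ← Matrix.single_add, add_neg_cancel, Matrix.single_zero,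
      add_zero]

theorem tv_mem {i j : Fin n} (h : i ≠ j) (r : R) : tv h r ∈ elementaryGroup n R :=
  Subgroup.subset_closure ⟨i, j, r, h, rfl⟩

/-- the Steinberg system of `E_n(R)` -/
def elSys (n : ℕ) (R : Type v) [Ring R] : StSys (Fin n) R (elementaryGroup n R) where
  x := fun i j r => if h : i ≠ j then ⟨tv h r, tv_mem h r⟩ else 1
  add := by
    intro i j h r s
    rw [dif_pos h, dif_pos h, dif_pos h]
    apply Subtype.ext
    apply Units.ext
    show 1 + Matrix.single i j (r + s) =
      (1 + Matrix.single i j r) * (1 + Matrix.single i j s)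
    rw [add_mul, mul_add, mul_add, Matrix.single_mul_single_of_ne _ _ _ _ h.symm, one_mul, one_mul,
      mul_one, add_zero, Matrix.single_add]
    abel
  mul := by
    intro i j k h1 h2 h3 r s
    rw [dif_pos h1, dif_pos h2, dif_pos h3]
    rw [mul_inv_eq_iff_eq_mul, mul_inv_eq_iff_eq_mul]
    apply Subtype.ext
    apply Units.ext
    show (1 + Matrix.single i j r) * (1 + Matrix.single j k s) =
      (1 + Matrix.single i k (r * s)) * (1 + Matrix.single j k s) * (1 + Matrix.single i j r)
    simp only [add_mul, mul_add, one_mul, mul_one]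
    rw [Matrix.single_mul_single_same, Matrix.single_mul_single_of_ne _ _ _ _ h2.symm,
      Matrix.single_mul_single_of_ne _ _ _ _ h3.symm,
      Matrix.single_mul_single_of_ne _ _ _ _ h3.symm, zero_mul]
    abel
  comm := by
    intro i j k l h1 h2 h3 h4 r s
    rw [dif_pos h1, dif_pos h2]
    apply Subtype.ext
    apply Units.ext
    show (1 + Matrix.single i j r) * (1 + Matrix.single k l s) =
      (1 + Matrix.single k l s) * (1 + Matrix.single i j r)
    simp only [add_mul, mul_add, one_mul, mul_one]
    rw [Matrix.single_mul_single_of_ne _ _ _ _ h4, Matrix.single_mul_single_of_ne _ _ _ _ h3.symm]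
    abel

theorem elSys_x {i j : Fin n} (h : i ≠ j) (r : R) :
    (elSys n R).x i j r = ⟨tv h r, tv_mem h r⟩ := dif_pos h

theorem elSys_gen : (elSys n R).Gen := by
  unfold StSys.Gen
  rw [eq_top_iff]
  rintro ⟨g, hg⟩ -
  have key : ∀ (g : (Matrix (Fin n) (Fin n) R)ˣ) (hg : g ∈ elementaryGroup n R),
      (⟨g, hg⟩ : elementaryGroup n R) ∈
        Subgroup.closure {g | ∃ i j r, i ≠ j ∧ g = (elSys n R).x i j r} := by
    intro g hg
    induction hg using Subgroup.closure_induction with
    | mem x hx =>
      obtain ⟨i, j, r, h, hx⟩ := hx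
      apply Subgroup.subset_closure
      refine ⟨i, j, r, h, ?_⟩
      rw [elSys_x h]
      apply Subtype.ext
      exact Units.ext hx
    | one => exact Subgroup.one_mem _
    | mul a b ha hb iha ihb => exact Subgroup.mul_mem _ iha ihb
    | inv a ha iha => exact Subgroup.inv_mem _ iha
  exact key g hg

end Pool.ELN
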