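import Pool.Agent.ELN.Main
import Pool.Agent.ELN.El

/-! # Module Fin2: actions on the interval, elementary groups -/

set_option autoImplicit false

universe u v w

namespace Pool.ELN

/-- every action of the group on a linear order by order automorphisms and every action on the
interval by increasing homeomorphisms is trivial -/
theorem interval_of_order {Γ : Type u} [Group Γ]
    (h : ∀ ψ : Γ →* (Set.Icc (0 : ℝ) 1 ≃o Set.Icc (0 : ℝ) 1), ψ = 1)
    (φ : Γ →* (Set.Icc (0 : ℝ) 1 ≃ₜ Set.Icc (0 : ℝ) 1)) (hφ : ∀ g, Monotone (φ g)) : φ = 1 := by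
  have hinv : ∀ g y, φ g⁻¹ (φ g y) = y := by
    intro g y
    have : φ g⁻¹ (φ g y) = (φ (g⁻¹ * g)) y := by rw [map_mul]; rfl
    rw [this, inv_mul_cancel, map_one]
    rfl
  let ψ : Γ →* (Set.Icc (0 : ℝ) 1 ≃o Set.Icc (0 : ℝ) 1) :=
    { toFun := fun g =>
        { toEquiv := (φ g).toEquiv
          map_rel_iff' := by
            intro x y
            constructor
            · intro h
              have := hφ g⁻¹ h
              have h1 := hinv g x
              have h2 := hinv g y
              change (φ g⁻¹) ((φ g) x) ≤ (φ g⁻¹) ((φ g) y) at this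
              rwa [h1, h2] at this
            · intro h; exact hφ g h }
      map_one' := by
        ext y
        show ((φ 1) y : ℝ) = y
        rw [map_one]
        rfl
      map_mul' := by
        intro g g'
        ext y
        show ((φ (g * g')) y : ℝ) = (φ g) ((φ g') y)
        rw [map_mul]
        rfl }
  have h1 := h ψ
  ext g y
  have h2 : ψ g = 1 := by rw [h1]; rfl
  have h3 : (ψ g) y = y := by rw [h2]; rfl
  have h4 : (φ g) y = y := h3
  rw [h4]
  rfl

/-- Every action of the group `Γ` by order automorphisms on a linearly ordered set is trivial, and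
every homomorphism from `Γ` to the group of increasing homeomorphisms of `[0,1]` is trivial. -/
def ActsTrivially (Γ : Type u) [Group Γ] : Prop :=
  (∀ (X : Type w) [LinearOrder X] (φ : Γ →* (X ≃o X)), φ = 1) ∧
  (∀ φ : Γ →* (Set.Icc (0 : ℝ) 1 ≃ₜ Set.Icc (0 : ℝ) 1), (∀ g, Monotone (φ g)) → φ = 1)

end Pool.ELN
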