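import Pool.Agent.ELN.Bas

/-! # Module UFin (difficulty 3): `U` and `V` are finite if the ring is finite

Let `W m` be the closure of the `x i j r` with `i < j`, `j < m` (as natural numbers); `W 0 = ⊥`,
`W n = U`. Let `C m` be the closure of the `x i j r` with `i < j = m`. `C m` is commutative and
finite: by commutation (`S.comm`, `x_comm`) it is a quotient of a finite product of finite groups (or:
show by induction on a finset `s` of indices that the closure of the `x i j r`, `i ∈ s`, is finite:
adding one index, every element is `x i j r * c`). `W m` normalizes `C m`: for `i < j < m`, `k < m`: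
`x i j r` conjugates `x k m s` into `x i m (r s) * x j m s` if `k = j`, else commutes. So
`W (m+1) ⊆ W m * C m` (as sets) is finite by induction. `V` is the `U` of the system reindexed by
`Fin.rev`. -/

set_option autoImplicit false

universe v w

namespace Pool.ELN

namespace StSys

private theorem ufin_nrm {G : Type w} [Group G] (gens T : Set G) (hT : ∀ g ∈ T, g⁻¹ ∈ T)
    (h : ∀ g ∈ T, ∀ y ∈ gens, g * y * g⁻¹ ∈ Subgroup.closure gens) :
    Subgroup.closure T ≤ Subgroup.normalizer (Subgroup.closure gens : Set G) := by
  have h1 : ∀ g ∈ T, ∀ y ∈ Subgroup.closure gens, g * y * g⁻¹ ∈ Subgroup.closure gens := by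
    intro g hg y hy
    induction hy using Subgroup.closure_induction with
    | mem y hy => exact h g hg y hy
    | one => rw [mul_one, mul_inv_cancel]; exact Subgroup.one_mem _
    | mul a b _ _ ha hb =>
      have h2 : g * (a * b) * g⁻¹ = (g * a * g⁻¹) * (g * b * g⁻¹) := by group
      rw [h2]
      exact Subgroup.mul_mem _ ha hb
    | inv a _ ha =>
      have h2 : g * a⁻¹ * g⁻¹ = (g * a * g⁻¹)⁻¹ := by group
      rw [h2]
      exact Subgroup.inv_mem _ ha
  rw [Subgroup.closure_le]
  intro g hg
  rw [SetLike.mem_coe, Subgroup.mem_normalizer_iff]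
  intro y
  constructor
  · exact h1 g hg y
  · intro hy
    have h2 := h1 g⁻¹ (hT g hg) _ hy
    have h3 : g⁻¹ * (g * y * g⁻¹) * g⁻¹⁻¹ = y := by group
    rwa [h3] at h2

private theorem ufin_sup {G : Type w} [Group G] (N H K : Subgroup G) (hN : (N : Set G).Finite)
    (hH : (H : Set G).Finite) (hle : H ≤ Subgroup.normalizer (N : Set G)) (hK : K ≤ N ⊔ H) :
    (K : Set G).Finite := by
  have h1 : ((N ⊔ H : Subgroup G) : Set G).Finite := by
    rw [Subgroup.coe_mul_of_right_le_normalizer_left N H hle]
    exact hN.mul hH
  exact h1.subset hK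

variable {n : ℕ} {A : Type v} {G : Type w} [Ring A] [Group G] (S : StSys (Fin n) A G)

theorem U_finite [Finite A] : Finite S.U := by
  classical
  -- the columns
  have hC : ∀ (m : Fin n) (s : Finset (Fin n)),
      ((Subgroup.closure {g | ∃ i ∈ s, ∃ r, i < m ∧ g = S.x i m r} : Subgroup G) :
        Set G).Finite := by
    intro m s
    induction s using Finset.induction_on with
    | empty =>
      have h1 : {g | ∃ i ∈ (∅ : Finset (Fin n)), ∃ r, i < m ∧ g = S.x i m r} = ∅ := by
        ext g
        simp
      rw [h1, Subgroup.closure_empty]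
      exact Set.finite_singleton _
    | insert a s _ ih =>
      by_cases ha : a < m
      · refine ufin_sup _ (Subgroup.closure {g | ∃ r, g = S.x a m r}) _ ih ?_ ?_ ?_
        · exact S.X_finite ha.ne
        · refine ufin_nrm _ _ ?_ ?_
          · rintro g ⟨r, rfl⟩
            exact ⟨-r, (S.x_neg ha.ne r).symm⟩
          · rintro g ⟨r, rfl⟩ y ⟨i, hi, q, him, rfl⟩
            rw [S.conj3 ha.ne him.ne ha.ne him.ne']
            exact Subgroup.subset_closure ⟨i, hi, q, him, rfl⟩
        · rw [Subgroup.closure_le]
          rintro g ⟨i, hi, r, him, rfl⟩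
          rcases Finset.mem_insert.1 hi with rfl | hi
          · exact Subgroup.mem_sup_right (Subgroup.subset_closure ⟨r, rfl⟩)
          · exact Subgroup.mem_sup_left (Subgroup.subset_closure ⟨i, hi, r, him, rfl⟩)
      · refine ih.subset ?_
        rw [SetLike.coe_subset_coe, Subgroup.closure_le]
        rintro g ⟨i, hi, r, him, rfl⟩
        rcases Finset.mem_insert.1 hi with rfl | hi
        · exact absurd him ha
        · exact Subgroup.subset_closure ⟨i, hi, r, him, rfl⟩
  have hW : ∀ m : ℕ, ((Subgroup.closure {g | ∃ (i j : Fin n) (r : A), i < j ∧ (j : ℕ) < m ∧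
      g = S.x i j r} :
      Subgroup G) : Set G).Finite := by
    intro m
    induction m with
    | zero =>
      have h1 : {g | ∃ (i j : Fin n) (r : A), i < j ∧ (j : ℕ) < 0 ∧ g = S.x i j r} = ∅ := by
        ext g
        simp
      rw [h1, Subgroup.closure_empty]
      exact Set.finite_singleton _
    | succ m ih =>
      by_cases hm : m < n
      · refine ufin_sup _ _ _ (hC ⟨m, hm⟩ Finset.univ) ih ?_ ?_
        · refine ufin_nrm _ _ ?_ ?_
          · rintro g ⟨i, j, r, hij, hj, rfl⟩
            exact ⟨i, j, -r, hij, hj, (S.x_neg hij.ne r).symm⟩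
          · rintro g ⟨i, j, r, hij, hj, rfl⟩ y ⟨k, -, q, hk, rfl⟩
            have hjm : j < (⟨m, hm⟩ : Fin n) := hj
            have him : i < (⟨m, hm⟩ : Fin n) := hij.trans hjm
            by_cases hjk : j = k
            · subst hjk
              rw [S.conj1 hij.ne hjm.ne him.ne]
              exact Subgroup.mul_mem _
                (Subgroup.subset_closure ⟨i, Finset.mem_univ _, _, him, rfl⟩)
                (Subgroup.subset_closure ⟨j, Finset.mem_univ _, _, hjm, rfl⟩)
            · rw [S.conj3 hij.ne hk.ne him.ne hjk]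
              exact Subgroup.subset_closure ⟨k, Finset.mem_univ _, _, hk, rfl⟩
        · rw [Subgroup.closure_le]
          rintro g ⟨i, j, r, hij, hj, rfl⟩
          rcases Nat.lt_succ_iff_lt_or_eq.1 hj with h1 | h1
          · exact Subgroup.mem_sup_right (Subgroup.subset_closure ⟨i, j, r, hij, h1, rfl⟩)
          · have hjm : j = ⟨m, hm⟩ := Fin.ext h1
            subst hjm
            exact Subgroup.mem_sup_left
              (Subgroup.subset_closure ⟨i, Finset.mem_univ _, r, hij, rfl⟩)
      · refine ih.subset ?_
        rw [SetLike.coe_subset_coe, Subgroup.closure_le]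
        rintro g ⟨i, j, r, hij, hj, rfl⟩
        exact Subgroup.subset_closure ⟨i, j, r, hij, by have := j.2; omega, rfl⟩
  have h1 : (S.U : Set G).Finite := by
    refine (hW n).subset ?_
    rw [SetLike.coe_subset_coe]
    unfold U
    rw [Subgroup.closure_le]
    rintro g ⟨i, j, r, hij, rfl⟩
    exact Subgroup.subset_closure ⟨i, j, r, hij, j.2, rfl⟩
  exact h1

theorem V_finite [Finite A] : Finite S.V := by
  have h1 := (S.reindex Fin.rev Fin.rev_injective).U_finite
  have h2 : (S.reindex Fin.rev Fin.rev_injective).U = S.V := by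
    unfold U V
    congr 1
    ext g
    constructor
    · rintro ⟨i, j, r, hij, rfl⟩
      exact ⟨Fin.rev i, Fin.rev j, r, Fin.rev_lt_rev.2 hij, rfl⟩
    · rintro ⟨i, j, r, hij, rfl⟩
      refine ⟨Fin.rev i, Fin.rev j, r, Fin.rev_lt_rev.2 hij, ?_⟩
      change S.x i j r = S.x (Fin.rev (Fin.rev i)) (Fin.rev (Fin.rev j)) r
      rw [Fin.rev_rev, Fin.rev_rev]
  rwa [h2] at h1

end StSys

end Pool.ELN
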