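import Pool.Agent.ELN.Uvu
import Pool.Agent.ELN.UFin

/-! # Module FinG (difficulty 3): a group generated by a Steinberg system over a finite ring is finite

Every root element has finitely many conjugates: `g = u v w h` (`uvuh`), `g x g⁻¹` with `x ∈ X i j` is
the conjugate by `u v w` (finitely many, `U_finite`, `V_finite`) of an element of the finite set
`X i j`. So the centralizer of each of the finitely many generators `x i j r` has finite index (orbit
of the conjugation action), the center (the intersection of these centralizers, as they generate) has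
finite index, the commutator subgroup is finite (Schur:
`Mathlib/GroupTheory/Schreier.lean`, instance `Finite (commutator G)` from
`Finite (commutatorSet G)`; `⁅g, h⁆` depends only on the classes of `g`, `h` modulo the center, so
`commutatorSet G` is finite), and `G` is perfect: `x i j r = [x i k r, x k j 1]`. -/

set_option autoImplicit false

universe v w

open scoped commutatorElement

namespace Pool.ELN

namespace StSys

variable {n : ℕ} {A : Type v} {G : Type w} [Ring A] [Group G] (S : StSys (Fin n) A G)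

private theorem FinG_conj [Finite A] (h3 : ∀ i j : Fin n, ∃ k, k ≠ i ∧ k ≠ j) (hS : S.Gen)
    {i j : Fin n} (hij : i ≠ j) (r : A) :
    (Set.range fun g : G => g * S.x i j r * g⁻¹).Finite := by
  have hU := S.U_finite
  have hV := S.V_finite
  have h1 : (Set.range fun p : S.U × S.V × S.U × A =>
      ((p.1 : G) * (p.2.1 : G) * (p.2.2.1 : G)) * S.x i j p.2.2.2 *
        ((p.1 : G) * (p.2.1 : G) * (p.2.2.1 : G))⁻¹).Finite := Set.finite_range _
  refine h1.subset ?_
  rintro _ ⟨g, rfl⟩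
  obtain ⟨u, hu, v, hv, w, hw, h, hh, rfl⟩ := S.uvuh h3 hS g
  obtain ⟨s, hs⟩ := S.H_conj hij h hh r
  refine ⟨(⟨u, hu⟩, ⟨v, hv⟩, ⟨w, hw⟩, s), ?_⟩
  show (u * v * w) * S.x i j s * (u * v * w)⁻¹ = u * v * w * h * S.x i j r * (u * v * w * h)⁻¹
  rw [← hs]
  group

private theorem FinG_center (hS : S.Gen) {z : G}
    (hz : ∀ i j r, i ≠ j → z * S.x i j r = S.x i j r * z) (g : G) : z * g = g * z := by
  have h1 : (⊤ : Subgroup G) ≤ Subgroup.centralizer {z} := by
    rw [← hS, Subgroup.closure_le]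
    rintro _ ⟨i, j, r, hij, rfl⟩
    rw [SetLike.mem_coe, Subgroup.mem_centralizer_singleton_iff]
    exact (hz i j r hij).symm
  have h2 := h1 (Subgroup.mem_top g)
  rw [Subgroup.mem_centralizer_singleton_iff] at h2
  exact h2.symm

theorem finG [Finite A] (h3 : ∀ i j : Fin n, ∃ k, k ≠ i ∧ k ≠ j) (hS : S.Gen) : Finite G := by
  classical
  -- the map to the conjugates of the generators
  let Φ : G → (Fin n × Fin n × A → G) := fun g p =>
    if p.1 = p.2.1 then 1 else g * S.x p.1 p.2.1 p.2.2 * g⁻¹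
  have hΦ : (Set.range Φ).Finite := by
    have h1 : (Set.pi Set.univ fun p : Fin n × Fin n × A =>
        Set.range fun g : G => Φ g p).Finite := by
      refine Set.Finite.pi fun p => ?_
      by_cases hp : p.1 = p.2.1
      · refine (Set.finite_singleton (1 : G)).subset ?_
        rintro _ ⟨g, rfl⟩
        simp only [Φ, if_pos hp, Set.mem_singleton_iff]
      · simp only [Φ, if_neg hp]
        exact S.FinG_conj h3 hS hp p.2.2
    refine h1.subset ?_
    rintro _ ⟨g, rfl⟩ p _
    exact ⟨g, rfl⟩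
  have hc : ∀ g g' : G, Φ g = Φ g' → ∃ z : G, g = g' * z ∧ ∀ h, z * h = h * z := by
    intro g g' hgg
    refine ⟨g'⁻¹ * g, by group, S.FinG_center hS ?_⟩
    intro i j r hij
    have h1 : g * S.x i j r * g⁻¹ = g' * S.x i j r * g'⁻¹ := by
      have h2 := congrFun hgg (i, j, r)
      simp only [Φ, if_neg hij] at h2
      exact h2
    calc g'⁻¹ * g * S.x i j r = g'⁻¹ * (g * S.x i j r * g⁻¹) * g := by group
      _ = g'⁻¹ * (g' * S.x i j r * g'⁻¹) * g := by rw [h1]
      _ = S.x i j r * (g'⁻¹ * g) := by group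
  have hcomm : (commutatorSet G).Finite := by
    have hQ : Finite (Set.range Φ) := hΦ
    choose σ hσ using fun q : Set.range Φ => q.2
    have h1 : (Set.range fun p : Set.range Φ × Set.range Φ => ⁅σ p.1, σ p.2⁆).Finite :=
      Set.finite_range _
    refine h1.subset ?_
    rintro _ ⟨g, h, rfl⟩
    refine ⟨(⟨Φ g, g, rfl⟩, ⟨Φ h, h, rfl⟩), ?_⟩
    show ⁅σ ⟨Φ g, g, rfl⟩, σ ⟨Φ h, h, rfl⟩⁆ = ⁅g, h⁆
    obtain ⟨z, hz1, hz2⟩ := hc g (σ ⟨Φ g, g, rfl⟩) (hσ ⟨Φ g, g, rfl⟩).symm
    obtain ⟨y, hy1, hy2⟩ := hc h (σ ⟨Φ h, h, rfl⟩) (hσ ⟨Φ h, h, rfl⟩).symm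
    generalize σ ⟨Φ g, g, rfl⟩ = a at *
    generalize σ ⟨Φ h, h, rfl⟩ = b at *
    rw [hz1, hy1, commutatorElement_def, commutatorElement_def]
    have e1 : a * z * (b * y) * (a * z)⁻¹ * (b * y)⁻¹ =
        a * (z * (b * y)) * z⁻¹ * a⁻¹ * y⁻¹ * b⁻¹ := by group
    have e2 : y⁻¹ * b⁻¹ = b⁻¹ * y⁻¹ := by
      have := hy2 b
      calc y⁻¹ * b⁻¹ = (b * y)⁻¹ := by group
        _ = (y * b)⁻¹ := by rw [this]
        _ = b⁻¹ * y⁻¹ := by group
    have e3 : y * a⁻¹ = a⁻¹ * y := hy2 _
    rw [e1, hz2]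
    calc a * b * a⁻¹ * b⁻¹ = a * b * (a⁻¹ * y) * y⁻¹ * b⁻¹ := by group
      _ = a * b * (y * a⁻¹) * y⁻¹ * b⁻¹ := by rw [e3]
      _ = a * (b * y * z) * z⁻¹ * a⁻¹ * y⁻¹ * b⁻¹ := by group
  have hcs : Finite (commutatorSet G) := hcomm
  have hcf : Finite (_root_.commutator G) := inferInstance
  have htop : _root_.commutator G = ⊤ := by
    rw [eq_top_iff, ← hS, Subgroup.closure_le]
    rintro _ ⟨i, j, r, hij, rfl⟩
    obtain ⟨k, hki, hkj⟩ := h3 i j
    have h1 := S.mul i k j hki.symm hkj hij r 1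
    rw [mul_one] at h1
    rw [← h1]
    exact Subgroup.commutator_mem_commutator (Subgroup.mem_top (S.x i k r))
      (Subgroup.mem_top (S.x k j 1))
  rw [htop] at hcf
  exact Finite.of_equiv _ (Subgroup.topEquiv (G := G)).toEquiv

end StSys

end Pool.ELN
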