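import Pool.Agent.ELN.Bas

/-! # Module Good (difficulty 3): elements acting on the other root subgroups by a 2 x 2 matrix

`Good S i j g m`: for every `k ≠ i, j`, `g` conjugates `x i k a * x j k b` to
`x i k (m00 a + m01 b) * x j k (m10 a + m11 b)` and `x k i a * x k j b` to
`x k i (a n00 + b n10) * x k j (a n01 + b n11)` with `n = m⁻¹`, and `g` commutes with all `x k l a`,
`k, l ∉ {i, j}`. `Good` is multiplicative (conjugate by `g'` first, then by `g`; matrix products), and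
`Good (x i j a) (1 a; 0 1)`, `Good (x j i a) (1 0; a 1)` (formulas `conj1`, `conj2`, `conj3`; the
elements `x i k _`, `x j k _` commute, also `x k i _`, `x k j _`). Hence every `g ∈ S.L i j` has an
`m` with `Good g m` (closure induction; `S.L i j` is the closure of the union; the inverse of a
generator is a generator: `x i j (-a)`).

`diag`: if `m` is diagonal, then so is `m⁻¹` (`m00`, `m11` are units), and `g` maps every root
subgroup to itself: clear for `X i k, X j k, X k i, X k j, X k l`; for `X i j` write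
`x i j a = [x i k a, x k j 1]` with a third index `k`, so
`g (x i j a) g⁻¹ = [x i k (m00 a), x k j (n11)] = x i j (m00 a n11)`; same for `X j i`. Now
`mem_H`. -/

set_option autoImplicit false

universe u v w

namespace Pool.ELN

namespace StSys

variable {ι : Type u} {A : Type v} {G : Type w} [Ring A] [Group G] (S : StSys ι A G)

/-- see above -/
structure Good (i j : ι) (g : G) (m : (Matrix (Fin 2) (Fin 2) A)ˣ) : Prop where
  col : ∀ k, k ≠ i → k ≠ j → ∀ a b, g * (S.x i k a * S.x j k b) * g⁻¹ =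
    S.x i k (m.1 0 0 * a + m.1 0 1 * b) * S.x j k (m.1 1 0 * a + m.1 1 1 * b)
  row : ∀ k, k ≠ i → k ≠ j → ∀ a b, g * (S.x k i a * S.x k j b) * g⁻¹ =
    S.x k i (a * (m⁻¹).1 0 0 + b * (m⁻¹).1 1 0) * S.x k j (a * (m⁻¹).1 0 1 + b * (m⁻¹).1 1 1)
  com : ∀ k l, k ≠ l → k ≠ i → k ≠ j → l ≠ i → l ≠ j → ∀ a, Commute g (S.x k l a)

/-- upper elementary matrix -/
def eU (a : A) : (Matrix (Fin 2) (Fin 2) A)ˣ where
  val := !![1, a; 0, 1]
  inv := !![1, -a; 0, 1]
  val_inv := by ext i j; fin_cases i <;> fin_cases j <;> simp [Matrix.mul_apply, Fin.sum_univ_two]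
  inv_val := by ext i j; fin_cases i <;> fin_cases j <;> simp [Matrix.mul_apply, Fin.sum_univ_two]

/-- lower elementary matrix -/
def eL (a : A) : (Matrix (Fin 2) (Fin 2) A)ˣ where
  val := !![1, 0; a, 1]
  inv := !![1, 0; -a, 1]
  val_inv := by ext i j; fin_cases i <;> fin_cases j <;> simp [Matrix.mul_apply, Fin.sum_univ_two]
  inv_val := by ext i j; fin_cases i <;> fin_cases j <;> simp [Matrix.mul_apply, Fin.sum_univ_two]

theorem good_mul {i j : ι} (hij : i ≠ j) {g g' : G} {m m' : (Matrix (Fin 2) (Fin 2) A)ˣ}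
    (h : S.Good i j g m) (h' : S.Good i j g' m') : S.Good i j (g * g') (m * m') := by
  have key : ∀ y : G, g * g' * y * (g * g')⁻¹ = g * (g' * y * g'⁻¹) * g⁻¹ := by
    intro y; group
  refine ⟨?_, ?_, ?_⟩
  · intro k h1 h2 a b
    rw [key, h'.col k h1 h2, h.col k h1 h2]
    congr 2
    · rw [Units.val_mul, Matrix.mul_apply, Matrix.mul_apply, Fin.sum_univ_two, Fin.sum_univ_two]
      noncomm_ring
    · rw [Units.val_mul, Matrix.mul_apply, Matrix.mul_apply, Fin.sum_univ_two, Fin.sum_univ_two]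
      noncomm_ring
  · intro k h1 h2 a b
    rw [key, h'.row k h1 h2, h.row k h1 h2, mul_inv_rev]
    congr 2
    · rw [Units.val_mul, Matrix.mul_apply, Matrix.mul_apply, Fin.sum_univ_two, Fin.sum_univ_two]
      noncomm_ring
    · rw [Units.val_mul, Matrix.mul_apply, Matrix.mul_apply, Fin.sum_univ_two, Fin.sum_univ_two]
      noncomm_ring
  · intro k l h0 h1 h2 h3 h4 a
    exact (h.com k l h0 h1 h2 h3 h4 a).mul_left (h'.com k l h0 h1 h2 h3 h4 a)

theorem good_U {i j : ι} (hij : i ≠ j) (a : A) : S.Good i j (S.x i j a) (eU a) := by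
  have key : ∀ t y z : G, t * (y * z) * t⁻¹ = (t * y * t⁻¹) * (t * z * t⁻¹) := by
    intro t y z; group
  have e00 : (eU a : (Matrix (Fin 2) (Fin 2) A)ˣ).1 0 0 = 1 := rfl
  have e01 : (eU a : (Matrix (Fin 2) (Fin 2) A)ˣ).1 0 1 = a := rfl
  have e10 : (eU a : (Matrix (Fin 2) (Fin 2) A)ˣ).1 1 0 = 0 := rfl
  have e11 : (eU a : (Matrix (Fin 2) (Fin 2) A)ˣ).1 1 1 = 1 := rfl
  have n00 : ((eU a)⁻¹ : (Matrix (Fin 2) (Fin 2) A)ˣ).1 0 0 = 1 := rfl
  have n01 : ((eU a)⁻¹ : (Matrix (Fin 2) (Fin 2) A)ˣ).1 0 1 = -a := rfl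
  have n10 : ((eU a)⁻¹ : (Matrix (Fin 2) (Fin 2) A)ˣ).1 1 0 = 0 := rfl
  have n11 : ((eU a)⁻¹ : (Matrix (Fin 2) (Fin 2) A)ˣ).1 1 1 = 1 := rfl
  refine ⟨?_, ?_, ?_⟩
  · intro k h1 h2 c b
    rw [e00, e01, e10, e11, one_mul, zero_mul, zero_add, one_mul, key,
      S.conj3 hij h1.symm h1.symm hij.symm, S.conj1 hij h2.symm h1.symm, ← mul_assoc,
      ← S.add i k h1.symm]
  · intro k h1 h2 c b
    rw [n00, n01, n10, n11, mul_one, mul_zero, add_zero, mul_one, key,
      S.conj2 h1 hij h2, S.conj3 hij h2 hij h2.symm, mul_neg, S.add k j h2, ← mul_assoc]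
    congr 1
    exact ((S.comm k i k j h1 h2 h2 h1.symm c (-(c * a))).eq).symm
  · intro k l h0 h1 h2 h3 h4 c
    exact S.comm i j k l hij h0 h3.symm h2.symm a c

theorem good_L {i j : ι} (hij : i ≠ j) (a : A) : S.Good i j (S.x j i a) (eL a) := by
  have key : ∀ t y z : G, t * (y * z) * t⁻¹ = (t * y * t⁻¹) * (t * z * t⁻¹) := by
    intro t y z; group
  have e00 : (eL a : (Matrix (Fin 2) (Fin 2) A)ˣ).1 0 0 = 1 := rfl
  have e01 : (eL a : (Matrix (Fin 2) (Fin 2) A)ˣ).1 0 1 = 0 := rfl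
  have e10 : (eL a : (Matrix (Fin 2) (Fin 2) A)ˣ).1 1 0 = a := rfl
  have e11 : (eL a : (Matrix (Fin 2) (Fin 2) A)ˣ).1 1 1 = 1 := rfl
  have n00 : ((eL a)⁻¹ : (Matrix (Fin 2) (Fin 2) A)ˣ).1 0 0 = 1 := rfl
  have n01 : ((eL a)⁻¹ : (Matrix (Fin 2) (Fin 2) A)ˣ).1 0 1 = 0 := rfl
  have n10 : ((eL a)⁻¹ : (Matrix (Fin 2) (Fin 2) A)ˣ).1 1 0 = -a := rfl
  have n11 : ((eL a)⁻¹ : (Matrix (Fin 2) (Fin 2) A)ˣ).1 1 1 = 1 := rfl
  refine ⟨?_, ?_, ?_⟩
  · intro k h1 h2 c b
    rw [e00, e01, e10, e11, one_mul, zero_mul, add_zero, one_mul, key,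
      S.conj1 hij.symm h1.symm h2.symm, S.conj3 hij.symm h2.symm h2.symm hij,
      S.add j k h2.symm, ← mul_assoc]
    congr 1
    exact ((S.comm i k j k h1.symm h2.symm h1.symm h2 c (a * c)).eq).symm
  · intro k h1 h2 c b
    rw [n00, n01, n10, n11, mul_one, mul_zero, zero_add, mul_one, key,
      S.conj3 hij.symm h1 hij.symm h1.symm, S.conj2 h2 hij.symm h1, mul_neg, S.add k i h1,
      ← mul_assoc]
  · intro k l h0 h1 h2 h3 h4 c
    exact S.comm j i k l hij.symm h0 h4.symm h1.symm a c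

theorem exists_good {i j : ι} (hij : i ≠ j) {g : G} (hg : g ∈ S.L i j) :
    ∃ m, S.Good i j g m := by
  unfold L X at hg
  rw [← Subgroup.closure_union] at hg
  induction hg using Subgroup.closure_induction_left with
  | one =>
    refine ⟨1, ?_, ?_, ?_⟩
    · intro k h1 h2 a b
      rw [Units.val_one, Matrix.one_apply_eq, Matrix.one_apply_eq,
        Matrix.one_apply_ne (by decide), Matrix.one_apply_ne (by decide)]
      simp
    · intro k h1 h2 a b
      have e : ((1 : (Matrix (Fin 2) (Fin 2) A)ˣ)⁻¹).1 = 1 := by rw [inv_one]; rfl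
      rw [e, Matrix.one_apply_eq, Matrix.one_apply_eq,
        Matrix.one_apply_ne (by decide), Matrix.one_apply_ne (by decide)]
      simp
    · intro k l _ _ _ _ _ a
      exact Commute.one_left _
  | mul_left y hy z _ hz =>
    obtain ⟨m, hm⟩ := hz
    rcases hy with ⟨r, rfl⟩ | ⟨r, rfl⟩
    · exact ⟨_, S.good_mul hij (S.good_U hij r) hm⟩
    · exact ⟨_, S.good_mul hij (S.good_L hij r) hm⟩
  | inv_mul_cancel y hy z _ hz =>
    obtain ⟨m, hm⟩ := hz
    rcases hy with ⟨r, rfl⟩ | ⟨r, rfl⟩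
    · rw [← S.x_neg hij]
      exact ⟨_, S.good_mul hij (S.good_U hij (-r)) hm⟩
    · rw [← S.x_neg hij.symm]
      exact ⟨_, S.good_mul hij (S.good_L hij (-r)) hm⟩

theorem diag [Finite A] (h3 : ∀ i j : ι, ∃ k, k ≠ i ∧ k ≠ j) {i j : ι} (hij : i ≠ j) {g : G}
    {m : (Matrix (Fin 2) (Fin 2) A)ˣ} (h : S.Good i j g m) (h01 : m.1 0 1 = 0)
    (h10 : m.1 1 0 = 0) : g ∈ S.H := by
  have hmn : m.1 * (m⁻¹).1 = 1 := m.mul_inv
  have hnm : (m⁻¹).1 * m.1 = 1 := m.inv_mul
  have a01 := congrFun (congrFun hmn 0) 1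
  have a10 := congrFun (congrFun hmn 1) 0
  have b00 := congrFun (congrFun hnm 0) 0
  have b11 := congrFun (congrFun hnm 1) 1
  rw [Matrix.mul_apply, Fin.sum_univ_two, Matrix.one_apply_ne (by decide), h01, zero_mul,
    add_zero] at a01
  rw [Matrix.mul_apply, Fin.sum_univ_two, Matrix.one_apply_ne (by decide), h10, zero_mul,
    zero_add] at a10
  rw [Matrix.mul_apply, Fin.sum_univ_two, Matrix.one_apply_eq, h10, mul_zero, add_zero] at b00
  rw [Matrix.mul_apply, Fin.sum_univ_two, Matrix.one_apply_eq, h01, mul_zero, zero_add] at b11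
  have n01 : (m⁻¹).1 0 1 = 0 := by
    rw [← one_mul ((m⁻¹).1 0 1), ← b00, mul_assoc, a01, mul_zero]
  have n10 : (m⁻¹).1 1 0 = 0 := by
    rw [← one_mul ((m⁻¹).1 1 0), ← b11, mul_assoc, a10, mul_zero]
  have c1 : ∀ k, k ≠ i → k ≠ j → ∀ a, g * S.x i k a * g⁻¹ = S.x i k (m.1 0 0 * a) := by
    intro k h1 h2 a
    have h3 := h.col k h1 h2 a 0
    rw [S.x_zero h2.symm, mul_one, mul_zero, add_zero, mul_zero, add_zero, h10, zero_mul,
      S.x_zero h2.symm, mul_one] at h3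
    exact h3
  have c2 : ∀ k, k ≠ i → k ≠ j → ∀ a, g * S.x j k a * g⁻¹ = S.x j k (m.1 1 1 * a) := by
    intro k h1 h2 a
    have h3 := h.col k h1 h2 0 a
    rw [S.x_zero h1.symm, one_mul, mul_zero, zero_add, mul_zero, zero_add, h01, zero_mul,
      S.x_zero h1.symm, one_mul] at h3
    exact h3
  have r1 : ∀ k, k ≠ i → k ≠ j → ∀ a, g * S.x k i a * g⁻¹ = S.x k i (a * (m⁻¹).1 0 0) := by
    intro k h1 h2 a
    have h3 := h.row k h1 h2 a 0
    rw [S.x_zero h2, mul_one, zero_mul, add_zero, zero_mul, add_zero, n01, mul_zero,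
      S.x_zero h2, mul_one] at h3
    exact h3
  have r2 : ∀ k, k ≠ i → k ≠ j → ∀ a, g * S.x k j a * g⁻¹ = S.x k j (a * (m⁻¹).1 1 1) := by
    intro k h1 h2 a
    have h3 := h.row k h1 h2 0 a
    rw [S.x_zero h1, one_mul, zero_mul, zero_add, zero_mul, zero_add, n10, mul_zero,
      S.x_zero h1, one_mul] at h3
    exact h3
  have key : ∀ y z : G, g * (y * z * y⁻¹ * z⁻¹) * g⁻¹ =
      (g * y * g⁻¹) * (g * z * g⁻¹) * (g * y * g⁻¹)⁻¹ * (g * z * g⁻¹)⁻¹ := by
    intro y z; group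
  apply S.mem_H
  intro p q hpq r
  obtain ⟨k, hk1, hk2⟩ := h3 i j
  by_cases hpi : p = i
  · subst hpi
    by_cases hqj : q = j
    · subst hqj
      refine ⟨m.1 0 0 * r * (1 * (m⁻¹).1 1 1), ?_⟩
      have e1 := S.mul p k q hk1.symm hk2 hpq r 1
      rw [mul_one] at e1
      rw [← e1, key, c1 k hk1 hk2, r2 k hk1 hk2, S.mul p k q hk1.symm hk2 hpq]
    · exact ⟨_, c1 q hpq.symm hqj r⟩
  · by_cases hpj : p = j
    · subst hpj
      by_cases hqi : q = i
      · subst hqi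
        refine ⟨m.1 1 1 * r * (1 * (m⁻¹).1 0 0), ?_⟩
        have e1 := S.mul p k q hk2.symm hk1 hpq r 1
        rw [mul_one] at e1
        rw [← e1, key, c2 k hk1 hk2, r1 k hk1 hk2, S.mul p k q hk2.symm hk1 hpq]
      · exact ⟨_, c2 q hqi hpq.symm r⟩
    · by_cases hqi : q = i
      · subst hqi
        exact ⟨_, r1 p hpi hpj r⟩
      · by_cases hqj : q = j
        · subst hqj
          exact ⟨_, r2 p hpi hpj r⟩
        · refine ⟨r, ?_⟩
          rw [(h.com p q hpq hpi hpj hqi hqj r).eq, mul_assoc, mul_inv_cancel, mul_one]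

end StSys

end Pool.ELN
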