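import Pool.Agent.ELN.Bas

/-! # Module Idl (difficulty 2): the level ideal of a normal subgroup

`lev N = {r | x i j r ∈ N for all i ≠ j}` is a two-sided ideal: `x i j (r + s) = x i j r * x i j s`,
`x i j (a r) = [x i k a, x k j r]`, `x i j (r a) = [x i k r, x k j a]` with a third index `k`
(`h3`), and `N` is normal. If `N` has finite index and `ι` is finite, then `R ⧸ lev N` is finite:
the map `r ↦ (x i j r mod N)_(i,j)` to the finite set `ι × ι → G ⧸ N` (pairs `i = j` give `1`)
separates the classes: if `x i j r` and `x i j s` lie in the same left coset of `N` for all `i ≠ j`,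
then `r - s ∈ lev N`. -/

set_option autoImplicit false

universe u v w

namespace Pool.ELN

namespace StSys

variable {ι : Type u} {R : Type v} {G : Type w} [Ring R] [Group G] (S : StSys ι R G)

/-- the level ideal -/
def lev (h3 : ∀ i j : ι, ∃ k, k ≠ i ∧ k ≠ j) (N : Subgroup G) [N.Normal] : Ideal R where
  carrier := {r | ∀ i j, i ≠ j → S.x i j r ∈ N}
  add_mem' := by
    intro a b ha hb i j h
    rw [S.add i j h]
    exact N.mul_mem (ha i j h) (hb i j h)
  zero_mem' := by
    intro i j h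
    rw [S.x_zero h]
    exact N.one_mem
  smul_mem' := by
    intro c r hr i j h
    obtain ⟨k, hki, hkj⟩ := h3 i j
    rw [smul_eq_mul, ← S.mul i k j hki.symm hkj h]
    exact N.mul_mem (Subgroup.Normal.conj_mem inferInstance _ (hr k j hkj) _)
      (N.inv_mem (hr k j hkj))

theorem mem_lev {h3 : ∀ i j : ι, ∃ k, k ≠ i ∧ k ≠ j} {N : Subgroup G} [N.Normal] {r : R} :
    r ∈ S.lev h3 N ↔ ∀ i j, i ≠ j → S.x i j r ∈ N := Iff.rfl

instance (h3 : ∀ i j : ι, ∃ k, k ≠ i ∧ k ≠ j) (N : Subgroup G) [N.Normal] :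
    (S.lev h3 N).IsTwoSided := by
  refine ⟨?_⟩
  intro a b ha i j h
  obtain ⟨k, hki, hkj⟩ := h3 i j
  rw [← S.mul i k j hki.symm hkj h]
  have h1 : S.x i k a ∈ N := ha i k hki.symm
  have e : S.x i k a * S.x k j b * (S.x i k a)⁻¹ * (S.x k j b)⁻¹ =
      S.x i k a * (S.x k j b * (S.x i k a)⁻¹ * (S.x k j b)⁻¹) := by group
  rw [e]
  exact N.mul_mem h1 (Subgroup.Normal.conj_mem inferInstance _ (N.inv_mem h1) _)

theorem lev_finite [Finite ι] (h3 : ∀ i j : ι, ∃ k, k ≠ i ∧ k ≠ j) (N : Subgroup G) [N.Normal]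
    [N.FiniteIndex] : Finite (R ⧸ S.lev h3 N) := by
  classical
  have hfin : Finite (G ⧸ N) := inferInstance
  let F : R → (ι → ι → G ⧸ N) := fun r i j => if i = j then 1 else (S.x i j r : G ⧸ N)
  have hF : ∀ r s, F r = F s → r - s ∈ S.lev h3 N := by
    intro r s h i j hij
    have h1 := congrFun (congrFun h i) j
    simp only [F, if_neg hij] at h1
    have h2 : (S.x i j r)⁻¹ * S.x i j s ∈ N := QuotientGroup.eq.1 h1
    have h3' : S.x i j s = S.x i j (s - r) * S.x i j r := by
      rw [← S.add i j hij, sub_add_cancel]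
    have h4 : S.x i j (r - s) * S.x i j (s - r) = 1 := by
      rw [← S.add i j hij, sub_add_sub_cancel, sub_self, S.x_zero hij]
    have h5 : S.x i j (r - s) = (S.x i j (s - r))⁻¹ := eq_inv_of_mul_eq_one_left h4
    rw [h5]
    apply N.inv_mem
    have h6 : S.x i j (s - r) = S.x i j r * ((S.x i j r)⁻¹ * S.x i j s) * (S.x i j r)⁻¹ := by
      rw [h3']
      group
    rw [h6]
    exact Subgroup.Normal.conj_mem inferInstance _ h2 _
  refine Finite.of_injective (fun c : R ⧸ S.lev h3 N => F (Quotient.out c)) ?_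
  intro c d h
  have h1 := hF _ _ h
  have h2 : (Ideal.Quotient.mk (S.lev h3 N) (Quotient.out c)) =
      Ideal.Quotient.mk (S.lev h3 N) (Quotient.out d) := Ideal.Quotient.eq.2 h1
  have h3c : Ideal.Quotient.mk (S.lev h3 N) (Quotient.out c) = c := Quotient.out_eq c
  have h3d : Ideal.Quotient.mk (S.lev h3 N) (Quotient.out d) = d := Quotient.out_eq d
  rw [h3c, h3d] at h2
  exact h2

end StSys

end Pool.ELN
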