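import Mathlib

/-! # Module Lo (difficulty 2-3): the automorphism group of a linear order is left-orderable

`exists_leftOrder`: choose a well-order `≺` of `X` (`exists_wellOrder` or `WellOrderingRel`). For
`g ≠ h` let `p` be the `≺`-least point with `g p ≠ h p`, and put `g < h` iff `g p < h p`.
Transitivity: let `p` be the least point where `g`, `h`, `k` are not all equal ...; left invariance:
`(a * g) p = a (g p)` and `a` is strictly increasing and injective, so the least point of difference
of `a g`, `a h` is that of `g`, `h`.

`pow_eq_one`: if `g p > p` then `g^m p > p` for all `m ≥ 1` (induction, monotone); similarly `<`. -/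

set_option autoImplicit false

universe u

namespace Pool.ELN

/-- a copy of `X` with a well-order -/
private def LoW (X : Type u) : Type u := X

open Classical in
private noncomputable instance (X : Type u) : LinearOrder (LoW X) :=
  linearOrderOfSTO (WellOrderingRel (α := LoW X))

private instance (X : Type u) : WellFoundedLT (LoW X) :=
  ⟨(WellOrderingRel.isWellOrder (α := LoW X)).wf⟩

theorem exists_leftOrder (X : Type u) [LinearOrder X] :
    ∃ o : LinearOrder (X ≃o X), @MulLeftMono (X ≃o X) _ o.toLE := by
  let F : (X ≃o X) → Lex (LoW X → X) := fun g => toLex (fun x : LoW X => g x)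
  have hF : Function.Injective F := by
    intro g h hgh
    apply OrderIso.ext
    funext x
    exact congrFun (toLex.injective hgh) x
  refine ⟨LinearOrder.lift' F hF, ?_⟩
  have key : ∀ a g h : X ≃o X, F g < F h → F (a * g) < F (a * h) := by
    rintro a g h ⟨i, hi1, hi2⟩
    refine ⟨i, fun j hj => ?_, ?_⟩
    · exact congrArg a (hi1 j hj)
    · exact a.strictMono hi2
  refine @CovariantClass.mk _ _ _ _ ?_
  intro a g h hgh
  have h1 : F g ≤ F h := hgh
  show F (a * g) ≤ F (a * h)
  rcases h1.eq_or_lt with h2 | h2
  · rw [hF h2]
  · exact (key a g h h2).le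

theorem pow_eq_one {X : Type u} [LinearOrder X] {g : X ≃o X} {m : ℕ} (hm : m ≠ 0)
    (h : g ^ m = 1) : g = 1 := by
  by_contra hne
  have hex : ∃ p, g p ≠ p := by
    by_contra hcon
    push Not at hcon
    exact hne (OrderIso.ext (funext hcon))
  obtain ⟨p, hp⟩ := hex
  obtain ⟨l, rfl⟩ := Nat.exists_eq_succ_of_ne_zero hm
  rcases lt_or_gt_of_ne hp with h1 | h1
  · have h2 : ∀ l : ℕ, (g ^ (l + 1)) p < p := by
      intro l
      induction l with
      | zero => simpa using h1
      | succ l ih =>
        have h3 : (g ^ (l + 1 + 1)) p = (g ^ (l + 1)) (g p) := by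
          rw [pow_succ]; rfl
        rw [h3]
        exact ((g ^ (l + 1)).strictMono h1).trans ih
    have h4 := h2 l
    rw [h] at h4
    exact lt_irrefl _ h4
  · have h2 : ∀ l : ℕ, p < (g ^ (l + 1)) p := by
      intro l
      induction l with
      | zero => simpa using h1
      | succ l ih =>
        have h3 : (g ^ (l + 1 + 1)) p = (g ^ (l + 1)) (g p) := by
          rw [pow_succ]; rfl
        rw [h3]
        exact ih.trans ((g ^ (l + 1)).strictMono h1)
    have h4 := h2 l
    rw [h] at h4
    exact lt_irrefl _ h4

end Pool.ELN
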