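import Mathlib

/-! # Module Wit (difficulty 3): Witte Morris' cyclic argument in a left-ordered group

`Ll a b` : every power of `a` is smaller than `|b| = max b b⁻¹`.

Proof of `heis`. Suppose neither `Ll y x` nor `Ll y z`: there are integers `p`, `q` with
`max x x⁻¹ ≤ y^p` and `max z z⁻¹ ≤ y^q`. Replacing `y` by `y⁻¹` (and `k` by `-k`, `p` by `-p`, ...)
we may assume `1 < y`; then `p`, `q` may be replaced by natural numbers (`y^p ≤ y^|p|`). Replacing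
`x` by `x⁻¹` and/or `z` by `z⁻¹` (which replaces `k` by `-k`, as `y` commutes with `x`, `z`), we may
assume `1 ≤ x`, `1 ≤ z`. By symmetry (exchange `x` and `z`, `k` and `-k`) we may assume `k < 0`.
The factors `x`, `z`, `x⁻¹ y^p`, `z⁻¹ y^q` are all `≥ 1`, hence for all `m : ℕ`
`1 ≤ x^m z^m (x⁻¹ y^p)^m (z⁻¹ y^q)^m = x^m z^m x^(-m) z^(-m) y^((p+q)m) = y^(k m^2 + (p+q) m)`,
and for `m > p + q` the exponent is negative, so the right side is `< 1`. Contradiction.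
(`x^m z^m x^(-m) z^(-m) = (x z x⁻¹ z⁻¹)^(m^2)`, since the commutator `y^k` commutes with `x`, `z`.)

Proof of `cyc`. Suppose all `a i ≠ 1`. By `heis` (with `y = a i`, `x = a (i-1)`, `z = a (i+1)`) for
every `i`: `Ll (a i) (a (i-1))` or `Ll (a i) (a (i+1))`. `Ll` is transitive and irreflexive, hence
asymmetric. If `Ll (a 0) (a 1)`, then inductively `Ll (a i) (a (i+1))` for all `i` (the alternative
`Ll (a (i+1)) (a i)` contradicts the previous relation), so `Ll (a 0) (a 6) = Ll (a 0) (a 0)` by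
transitivity: contradiction. If `Ll (a 0) (a (-1))`, the same argument in the other direction. -/

set_option autoImplicit false

universe u

namespace Pool.ELN

/-- every power of `a` is smaller than `|b|` -/
def Ll {Q : Type u} [Group Q] [LinearOrder Q] (a b : Q) : Prop := ∀ m : ℤ, a ^ m < max b b⁻¹

section WitAux

variable {Q : Type u} [Group Q]

private theorem Wit_inv_left {x z c : Q} (h : x * z * x⁻¹ * z⁻¹ = c) (hx : Commute x c) :
    x⁻¹ * z * x⁻¹⁻¹ * z⁻¹ = c⁻¹ := by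
  have h1 : z * x * z⁻¹ = c⁻¹ * x := by
    rw [← h]
    group
  have h2 : x⁻¹ * z * x⁻¹⁻¹ * z⁻¹ = x⁻¹ * (z * x * z⁻¹) := by group
  rw [h2, h1, ← mul_assoc]
  have h3 : x⁻¹ * c⁻¹ = c⁻¹ * x⁻¹ := (hx.inv_inv).eq
  rw [h3, mul_assoc, inv_mul_cancel, mul_one]

private theorem Wit_symm {x z c : Q} (h : x * z * x⁻¹ * z⁻¹ = c) :
    z * x * z⁻¹ * x⁻¹ = c⁻¹ := by
  rw [← h]
  group

private theorem Wit_inv_right {x z c : Q} (h : x * z * x⁻¹ * z⁻¹ = c) (hz : Commute z c) :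
    x * z⁻¹ * x⁻¹ * z⁻¹⁻¹ = c⁻¹ := by
  have h1 := Wit_inv_left (Wit_symm h) hz.inv_right
  have h2 := Wit_symm h1
  simpa only [inv_inv] using h2

private theorem Wit_pow {x z y : Q} {k : ℤ} (hxy : Commute x y) (hzy : Commute z y)
    (h : x * z * x⁻¹ * z⁻¹ = y ^ k) (m : ℕ) :
    x ^ m * z ^ m * (x ^ m)⁻¹ * (z ^ m)⁻¹ = y ^ (k * m * m) := by
  have h1 : x * z * x⁻¹ = y ^ k * z := by
    rw [← h]
    group
  have hxk : ∀ j : ℤ, x * y ^ j = y ^ j * x := fun j => (hxy.zpow_right j).eq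
  have h2 : ∀ i : ℕ, x ^ i * z * (x ^ i)⁻¹ = y ^ (k * i) * z := by
    intro i
    induction i with
    | zero => simp
    | succ i ih =>
      have h3 : x ^ (i + 1) * z * (x ^ (i + 1))⁻¹ = x * (x ^ i * z * (x ^ i)⁻¹) * x⁻¹ := by
        rw [pow_succ']
        group
      rw [h3, ih, ← mul_assoc, hxk, mul_assoc (y ^ (k * (i : ℤ))) x z,
        mul_assoc (y ^ (k * (i : ℤ))), h1, ← mul_assoc, ← zpow_add]
      congr 2
      push_cast
      ring
  have h3 : x ^ m * z ^ m * (x ^ m)⁻¹ = (x ^ m * z * (x ^ m)⁻¹) ^ m := by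
    rw [conj_pow]
  have hc : Commute (y ^ (k * (m : ℤ))) z := (hzy.zpow_right _).symm
  rw [h3, h2, hc.mul_pow, mul_assoc, mul_inv_cancel, mul_one, ← zpow_natCast, ← zpow_mul]

variable [LinearOrder Q] [MulLeftMono Q]

private theorem Wit_one_le_pow {a : Q} (ha : 1 ≤ a) (m : ℕ) : 1 ≤ a ^ m := by
  induction m with
  | zero => simp
  | succ m ih =>
    rw [pow_succ]
    calc (1 : Q) ≤ a ^ m := ih
      _ = a ^ m * 1 := (mul_one _).symm
      _ ≤ a ^ m * a := mul_le_mul_right ha _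

private theorem Wit_one_le_mul {a b : Q} (ha : 1 ≤ a) (hb : 1 ≤ b) : 1 ≤ a * b := by
  calc (1 : Q) ≤ a := ha
    _ = a * 1 := (mul_one _).symm
    _ ≤ a * b := mul_le_mul_right hb _

private theorem Wit_pow_lt {y : Q} (hy : 1 < y) : ∀ m : ℕ, 1 < y ^ (m + 1) := by
  intro m
  have h1 := Wit_one_le_pow hy.le m
  rw [pow_succ]
  refine lt_of_le_of_ne (Wit_one_le_mul h1 hy.le) ?_
  intro h
  have h2 : y ^ m * 1 ≤ y ^ m * y := mul_le_mul_right hy.le _
  rw [mul_one, ← h] at h2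
  have h3 : y ^ m = 1 := le_antisymm h2 h1
  rw [h3, one_mul] at h
  exact hy.ne h

private theorem Wit_nonneg {y : Q} (hy : 1 < y) {j : ℤ} (h : 1 ≤ y ^ j) : 0 ≤ j := by
  by_contra hj
  push Not at hj
  obtain ⟨m, hm⟩ : ∃ m : ℕ, j = -((m + 1 : ℕ) : ℤ) := ⟨(-j).toNat - 1, by omega⟩
  rw [hm, zpow_neg, zpow_natCast] at h
  have h1 := Wit_pow_lt hy m
  have h2 : y ^ (m + 1) * 1 ≤ y ^ (m + 1) * (y ^ (m + 1))⁻¹ := mul_le_mul_right h _
  rw [mul_one, mul_inv_cancel] at h2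
  exact absurd h1 (not_lt.2 h2)

private theorem Wit_mono {y : Q} (hy : 1 < y) {i j : ℤ} (h : i ≤ j) : y ^ i ≤ y ^ j := by
  obtain ⟨m, hm⟩ : ∃ m : ℕ, j = i + m := ⟨(j - i).toNat, by omega⟩
  rw [hm, zpow_add, zpow_natCast]
  calc y ^ i = y ^ i * 1 := (mul_one _).symm
    _ ≤ y ^ i * y ^ m := mul_le_mul_right (Wit_one_le_pow hy.le m) _

private theorem Wit_core0 {x y z : Q} {k : ℤ} {P R : ℕ} (hk : k < 0) (hy : 1 < y)
    (hxy : Commute x y) (hzy : Commute z y) (h : x * z * x⁻¹ * z⁻¹ = y ^ k)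
    (hx : 1 ≤ x) (hz : 1 ≤ z) (hxP : x ≤ y ^ P) (hzR : z ≤ y ^ R) : False := by
  set m : ℕ := P + R + 1 with hm
  have a1 : 1 ≤ x⁻¹ * y ^ P := by
    have := mul_le_mul_right hxP x⁻¹
    rwa [inv_mul_cancel] at this
  have a2 : 1 ≤ z⁻¹ * y ^ R := by
    have := mul_le_mul_right hzR z⁻¹
    rwa [inv_mul_cancel] at this
  have a3 : 1 ≤ x ^ m * z ^ m * (x⁻¹ * y ^ P) ^ m * (z⁻¹ * y ^ R) ^ m :=
    Wit_one_le_mul (Wit_one_le_mul (Wit_one_le_mul (Wit_one_le_pow hx m) (Wit_one_le_pow hz m))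
      (Wit_one_le_pow a1 m)) (Wit_one_le_pow a2 m)
  have c1 : Commute x⁻¹ (y ^ P) := (hxy.pow_right P).inv_left
  have c2 : Commute z⁻¹ (y ^ R) := (hzy.pow_right R).inv_left
  have c3 : ((y ^ P) ^ m) * (z⁻¹) ^ m = (z⁻¹) ^ m * (y ^ P) ^ m :=
    (((hzy.pow_right P).inv_left.pow_pow m m).symm).eq
  have e1 : x ^ m * z ^ m * (x⁻¹ * y ^ P) ^ m * (z⁻¹ * y ^ R) ^ m =
      (x ^ m * z ^ m * (x ^ m)⁻¹ * (z ^ m)⁻¹) * ((y ^ P) ^ m * (y ^ R) ^ m) := by
    rw [c1.mul_pow, c2.mul_pow, ← inv_pow, ← inv_pow]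
    calc x ^ m * z ^ m * (x⁻¹ ^ m * (y ^ P) ^ m) * (z⁻¹ ^ m * (y ^ R) ^ m) =
        x ^ m * z ^ m * x⁻¹ ^ m * ((y ^ P) ^ m * z⁻¹ ^ m) * (y ^ R) ^ m := by
          simp only [mul_assoc]
      _ = _ := by
          rw [c3]
          simp only [mul_assoc]
  rw [e1, Wit_pow hxy hzy h m] at a3
  have e2 : y ^ (k * m * m) * ((y ^ P) ^ m * (y ^ R) ^ m) =
      y ^ (k * m * m + (P * m + R * m)) := by
    rw [← pow_mul, ← pow_mul, ← pow_add, ← zpow_natCast, ← zpow_add]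
    congr 1
  rw [e2] at a3
  have h1 := Wit_nonneg hy a3
  have h2 : k ≤ -1 := by omega
  have h3 : (m : ℤ) = P + R + 1 := by
    rw [hm]
    push_cast
    ring
  have h4 : (0 : ℤ) < m := by omega
  have h5 : k * m * m ≤ -1 * m * m := by
    have : (0 : ℤ) ≤ m := h4.le
    gcongr
  nlinarith

private theorem Wit_core1 {x y z : Q} {k : ℤ} {P R : ℕ} (hk : k ≠ 0) (hy : 1 < y)
    (hxy : Commute x y) (hzy : Commute z y) (h : x * z * x⁻¹ * z⁻¹ = y ^ k)
    (hx : 1 ≤ x) (hz : 1 ≤ z) (hxP : x ≤ y ^ P) (hzR : z ≤ y ^ R) : False := by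
  rcases lt_or_gt_of_ne hk with h0 | h0
  · exact Wit_core0 h0 hy hxy hzy h hx hz hxP hzR
  · have h1 := Wit_symm h
    rw [← zpow_neg] at h1
    exact Wit_core0 (by omega) hy hzy hxy h1 hz hx hzR hxP

private theorem Wit_one_le_inv {x : Q} (hx : ¬ 1 ≤ x) : 1 ≤ x⁻¹ := by
  push Not at hx
  have := mul_le_mul_right hx.le x⁻¹
  rwa [inv_mul_cancel, mul_one] at this

private theorem Wit_core2 {x y z : Q} {k : ℤ} {P R : ℕ} (hk : k ≠ 0) (hy : 1 < y)
    (hxy : Commute x y) (hzy : Commute z y) (h : x * z * x⁻¹ * z⁻¹ = y ^ k)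
    (hxP : x ≤ y ^ P) (hxP' : x⁻¹ ≤ y ^ P) (hzR : z ≤ y ^ R) (hzR' : z⁻¹ ≤ y ^ R) : False := by
  have hk' : -k ≠ 0 := by omega
  by_cases hx : 1 ≤ x
  · by_cases hz : 1 ≤ z
    · exact Wit_core1 hk hy hxy hzy h hx hz hxP hzR
    · have h1 := Wit_inv_right h (hzy.zpow_right k)
      rw [← zpow_neg] at h1
      exact Wit_core1 hk' hy hxy hzy.inv_left h1 hx (Wit_one_le_inv hz) hxP hzR'
  · have h1 := Wit_inv_left h (hxy.zpow_right k)
    rw [← zpow_neg] at h1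
    by_cases hz : 1 ≤ z
    · exact Wit_core1 hk' hy hxy.inv_left hzy h1 (Wit_one_le_inv hx) hz hxP' hzR
    · have h2 := Wit_inv_right h1 (hzy.zpow_right (-k))
      rw [← zpow_neg, neg_neg] at h2
      exact Wit_core1 hk hy hxy.inv_left hzy.inv_left h2 (Wit_one_le_inv hx) (Wit_one_le_inv hz)
        hxP' hzR'

private theorem Wit_core3 {x y z : Q} {k p r : ℤ} (hk : k ≠ 0) (hy : 1 < y)
    (hxy : Commute x y) (hzy : Commute z y) (h : x * z * x⁻¹ * z⁻¹ = y ^ k)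
    (hp : max x x⁻¹ ≤ y ^ p) (hr : max z z⁻¹ ≤ y ^ r) : False := by
  have h1 : y ^ p ≤ y ^ p.natAbs := by
    rw [← zpow_natCast]
    exact Wit_mono hy (by omega)
  have h2 : y ^ r ≤ y ^ r.natAbs := by
    rw [← zpow_natCast]
    exact Wit_mono hy (by omega)
  exact Wit_core2 hk hy hxy hzy h ((le_max_left _ _).trans (hp.trans h1))
    ((le_max_right _ _).trans (hp.trans h1)) ((le_max_left _ _).trans (hr.trans h2))
    ((le_max_right _ _).trans (hr.trans h2))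

end WitAux

theorem heis {Q : Type u} [Group Q] [LinearOrder Q] [MulLeftMono Q] {x y z : Q} {k : ℤ}
    (hk : k ≠ 0) (hy : y ≠ 1) (hxy : Commute x y) (hzy : Commute z y)
    (h : x * z * x⁻¹ * z⁻¹ = y ^ k) : Ll y x ∨ Ll y z := by
  by_contra hcon
  rw [not_or] at hcon
  obtain ⟨hc1, hc2⟩ := hcon
  unfold Ll at hc1 hc2
  push Not at hc1 hc2
  obtain ⟨p, hp⟩ := hc1
  obtain ⟨r, hr⟩ := hc2
  by_cases h1 : 1 ≤ y
  · exact Wit_core3 hk (lt_of_le_of_ne h1 (Ne.symm hy)) hxy hzy h hp hr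
  · have h2 : 1 < y⁻¹ := lt_of_le_of_ne (Wit_one_le_inv h1) (by
      intro h3
      apply hy
      rw [← inv_inv y, ← h3, inv_one])
    have e : ∀ j : ℤ, y ^ j = y⁻¹ ^ (-j) := by
      intro j
      rw [inv_zpow', neg_neg]
    rw [e] at hp hr h
    exact Wit_core3 (k := -k) (by omega) h2 hxy.inv_right hzy.inv_right h hp hr

theorem cyc {Q : Type u} [Group Q] [LinearOrder Q] [MulLeftMono Q] (a : ZMod 6 → Q)
    (k : ZMod 6 → ℤ) (hk : ∀ i, k i ≠ 0) (h1 : ∀ i, Commute (a i) (a (i + 1)))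
    (h2 : ∀ i, a (i - 1) * a (i + 1) * (a (i - 1))⁻¹ * (a (i + 1))⁻¹ = a i ^ k i) :
    ∃ i, a i = 1 := by
  have htr : ∀ {a b c : Q}, Ll a b → Ll b c → Ll a c := by
    intro a b c hab hbc m
    refine lt_trans (hab m) ?_
    have h3 := hbc 1
    have h4 := hbc (-1)
    rw [zpow_one] at h3
    rw [zpow_neg_one] at h4
    exact max_lt h3 h4
  have hirr : ∀ {a : Q}, ¬ Ll a a := by
    intro a ha
    have h3 := ha 1
    have h4 := ha (-1)
    rw [zpow_one] at h3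
    rw [zpow_neg_one] at h4
    exact lt_irrefl _ (max_lt h3 h4)
  by_contra hne
  push Not at hne
  have H : ∀ i, Ll (a i) (a (i - 1)) ∨ Ll (a i) (a (i + 1)) := by
    intro i
    have h3 := h1 (i - 1)
    rw [sub_add_cancel] at h3
    exact heis (hk i) (hne i) h3 (h1 i).symm (h2 i)
  have up : ∀ i, Ll (a i) (a (i + 1)) → Ll (a (i + 1)) (a (i + 1 + 1)) := by
    intro i hi
    rcases H (i + 1) with h3 | h3
    · rw [add_sub_cancel_right] at h3
      exact absurd (htr hi h3) hirr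
    · exact h3
  have down : ∀ i, Ll (a i) (a (i - 1)) → Ll (a (i - 1)) (a (i - 1 - 1)) := by
    intro i hi
    rcases H (i - 1) with h3 | h3
    · exact h3
    · rw [sub_add_cancel] at h3
      exact absurd (htr hi h3) hirr
  rcases H 0 with h3 | h3
  · have t1 := down _ h3
    have t2 := down _ t1
    have t3 := down _ t2
    have t4 := down _ t3
    have t5 := down _ t4
    have := htr h3 (htr t1 (htr t2 (htr t3 (htr t4 t5))))
    rw [show (0 : ZMod 6) - 1 - 1 - 1 - 1 - 1 - 1 = 0 by decide] at this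
    exact hirr this
  · have t1 := up _ h3
    have t2 := up _ t1
    have t3 := up _ t2
    have t4 := up _ t3
    have t5 := up _ t4
    have := htr h3 (htr t1 (htr t2 (htr t3 (htr t4 t5))))
    rw [show (0 : ZMod 6) + 1 + 1 + 1 + 1 + 1 + 1 = 0 by decide] at this
    exact hirr this

end Pool.ELN
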