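import Pool.Agent.ELN.Bas
import Pool.Agent.ELN.Wit
import Pool.Agent.ELN.Lo

/-! # Module Six (difficulty 2): one of the six root elements acts trivially

`N` is a normal subgroup (normality is not needed here) containing all `x i j k` (`k` a natural
number, cast to `R`), `f` an action of `N` on a linear order. Put, for the three distinct indices
`1 = i, 2 = j, 3 = l`:
`a 0 = f(x12(k))`, `a 1 = f(x13(k))`, `a 2 = f(x23(k))`, `a 3 = f(x21(k))`, `a 4 = f(x31(k))`,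
`a 5 = f(x32(k))`, and exponents `k 1 = k`, `k 2 = -k`, `k 3 = k`, `k 4 = -k`, `k 5 = k`,
`k 0 = -k`:
`[x12(k), x23(k)] = x13(k^2) = x13(k)^k`, `[x13(k), x21(k)] = x23(k^2)⁻¹`,
`[x23(k), x31(k)] = x21(k^2)`, `[x21(k), x32(k)] = x31(k^2)⁻¹`, `[x31(k), x12(k)] = x32(k^2)`,
`[x32(k), x13(k)] = x12(k^2)⁻¹`, and neighbours commute (`S.comm`). Use `exists_leftOrder` and `cyc`
(`[b, a] = [a, b]⁻¹`). -/

set_option autoImplicit false

universe u v w t

namespace Pool.ELN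

namespace StSys

variable {ι : Type u} {R : Type v} {G : Type w} [Ring R] [Group G] (S : StSys ι R G)

theorem six {N : Subgroup G} {X : Type t} [LinearOrder X] (f : N →* (X ≃o X)) {k : ℕ}
    (hk0 : k ≠ 0) (hk : ∀ i j, i ≠ j → S.x i j (k : R) ∈ N) {i j l : ι} (hij : i ≠ j)
    (hjl : j ≠ l) (hil : i ≠ l) :
    ∃ p q, ∃ h : p ≠ q, f ⟨S.x p q (k : R), hk p q h⟩ = 1 := by
  obtain ⟨o, ho⟩ := exists_leftOrder X
  let e : ∀ p q, p ≠ q → (X ≃o X) := fun p q h => f ⟨S.x p q (k : R), hk p q h⟩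
  have hc : ∀ p q r s (h1 : p ≠ q) (h2 : r ≠ s), p ≠ s → q ≠ r →
      Commute (e p q h1) (e r s h2) := by
    intro p q r s h1 h2 h3 h4
    have h5 : Commute (⟨S.x p q (k : R), hk p q h1⟩ : N) ⟨S.x r s (k : R), hk r s h2⟩ :=
      Subtype.ext (S.comm p q r s h1 h2 h3 h4 _ _)
    exact h5.map f
  have hm : ∀ p q r (h1 : p ≠ q) (h2 : q ≠ r) (h3 : p ≠ r),
      e p q h1 * e q r h2 * (e p q h1)⁻¹ * (e q r h2)⁻¹ = e p r h3 ^ (k : ℤ) := by
    intro p q r h1 h2 h3
    have h4 : (⟨S.x p q (k : R), hk p q h1⟩ : N) * ⟨S.x q r (k : R), hk q r h2⟩ *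
        (⟨S.x p q (k : R), hk p q h1⟩ : N)⁻¹ * (⟨S.x q r (k : R), hk q r h2⟩ : N)⁻¹ =
        (⟨S.x p r (k : R), hk p r h3⟩ : N) ^ k := by
      apply Subtype.ext
      have h5 := S.mul p q r h1 h2 h3 (k : R) (k : R)
      have h6 : S.x p r ((k : R) * (k : R)) = S.x p r (k : R) ^ k := by
        rw [← S.x_nsmul h3, nsmul_eq_mul]
      rw [h6] at h5
      exact h5
    have h7 := congrArg f h4
    rw [map_mul, map_mul, map_mul, map_inv, map_inv, map_pow] at h7
    rw [zpow_natCast]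
    exact h7
  have hm' : ∀ p q r (h1 : p ≠ q) (h2 : q ≠ r) (h3 : p ≠ r),
      e q r h2 * e p q h1 * (e q r h2)⁻¹ * (e p q h1)⁻¹ = e p r h3 ^ (-(k : ℤ)) := by
    intro p q r h1 h2 h3
    rw [zpow_neg, ← hm p q r h1 h2 h3]
    group
  have hk' : (k : ℤ) ≠ 0 := by exact_mod_cast hk0
  let a : ZMod 6 → (X ≃o X) :=
    ![e i j hij, e i l hil, e j l hjl, e j i hij.symm, e l i hil.symm, e l j hjl.symm]
  let kk : ZMod 6 → ℤ := ![-(k : ℤ), k, -(k : ℤ), k, -(k : ℤ), k]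
  have r0 : ∀ i : ZMod 6, kk i ≠ 0 := by
    intro i
    change Fin 6 at i
    fin_cases i
    · exact neg_ne_zero.mpr hk'
    · exact hk'
    · exact neg_ne_zero.mpr hk'
    · exact hk'
    · exact neg_ne_zero.mpr hk'
    · exact hk'
  have r1 : ∀ i : ZMod 6, Commute (a i) (a (i + 1)) := by
    intro i
    change Fin 6 at i
    fin_cases i
    · exact hc i j i l hij hil hil hij.symm
    · exact hc i l j l hil hjl hil hjl.symm
    · exact hc j l j i hjl hij.symm hij.symm hjl.symm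
    · exact hc j i l i hij.symm hil.symm hij.symm hil
    · exact hc l i l j hil.symm hjl.symm hjl.symm hil
    · exact hc l j i j hjl.symm hij hjl.symm hij.symm
  have r2 : ∀ i : ZMod 6, a (i - 1) * a (i + 1) * (a (i - 1))⁻¹ * (a (i + 1))⁻¹ =
      a i ^ kk i := by
    intro i
    change Fin 6 at i
    fin_cases i
    · exact hm' i l j hil hjl.symm hij
    · exact hm i j l hij hjl hil
    · exact hm' j i l hij.symm hil hjl
    · exact hm j l i hjl hil.symm hij.symm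
    · exact hm' l j i hjl.symm hij.symm hil.symm
    · exact hm l i j hil.symm hij hjl.symm
  obtain ⟨m, hmm⟩ := @cyc (X ≃o X) _ o ho a kk r0 r1 r2
  change Fin 6 at m
  fin_cases m
  · exact ⟨i, j, hij, hmm⟩
  · exact ⟨i, l, hil, hmm⟩
  · exact ⟨j, l, hjl, hmm⟩
  · exact ⟨j, i, hij.symm, hmm⟩
  · exact ⟨l, i, hil.symm, hmm⟩
  · exact ⟨l, j, hjl.symm, hmm⟩

end StSys

end Pool.ELN
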