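import Pool.Agent.ELN.Idl
import Pool.Agent.ELN.Six

/-! # Module Ker (difficulty 3): all root elements of level `lev N` act trivially

Let `I = lev N`, `k` a positive natural number with `(k : R) ∈ I` and `f` an action of `N` on a
linear order. For a natural number `m` and `p ≠ q` let `T p q m` be the statement: for all `s ∈ I`,
`f (x p q (m • s)) = 1`. By `six` there are `p ≠ q` with `f (x p q k) = 1`. Hence for `l ≠ p, q` and
`s ∈ I`: `x p l (k • s) = [x p q k, x q l s]` (`k s = k • s`), so `T p l k`, and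
`x l q (k • s) = [x l p s, x p q k]`, so `T l q k`. In the same way `T p q m` implies
`T p l (m * k)` and `T l q (m * k)` for `l ≠ p, q` (`x p l ((m * k) • s) = [x p q (m • s), x q l k]`).
Going from one pair to another with at most four such steps, for every pair `i ≠ j` there is `m ≠ 0`
with `T i j m`. Finally `f (x i j s) ^ m = f (x i j (m • s)) = 1` and `pow_eq_one` give
`f (x i j s) = 1`. -/

set_option autoImplicit false

universe u v w t

namespace Pool.ELN

namespace StSys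

variable {ι : Type u} {R : Type v} {G : Type w} [Ring R] [Group G] (S : StSys ι R G)

private theorem f_comm_left {N : Subgroup G} {X : Type t} [LinearOrder X] (f : N →* (X ≃o X))
    {a b c : G} (ha : a ∈ N) (hb : b ∈ N) (hc : c ∈ N) (h : a * b * a⁻¹ * b⁻¹ = c)
    (h1 : f ⟨a, ha⟩ = 1) : f ⟨c, hc⟩ = 1 := by
  have e : (⟨c, hc⟩ : N) = ⟨a, ha⟩ * ⟨b, hb⟩ * (⟨a, ha⟩)⁻¹ * (⟨b, hb⟩)⁻¹ := Subtype.ext h.symm
  rw [e, map_mul, map_mul, map_mul, map_inv, map_inv, h1]
  group

private theorem f_comm_right {N : Subgroup G} {X : Type t} [LinearOrder X] (f : N →* (X ≃o X))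
    {a b c : G} (ha : a ∈ N) (hb : b ∈ N) (hc : c ∈ N) (h : a * b * a⁻¹ * b⁻¹ = c)
    (h1 : f ⟨b, hb⟩ = 1) : f ⟨c, hc⟩ = 1 := by
  have e : (⟨c, hc⟩ : N) = ⟨a, ha⟩ * ⟨b, hb⟩ * (⟨a, ha⟩)⁻¹ * (⟨b, hb⟩)⁻¹ := Subtype.ext h.symm
  rw [e, map_mul, map_mul, map_mul, map_inv, map_inv, h1]
  group

theorem ker_all (h3 : ∀ i j : ι, ∃ k, k ≠ i ∧ k ≠ j) (hne : Nonempty ι) (N : Subgroup G)
    [N.Normal] {X : Type t} [LinearOrder X] (f : N →* (X ≃o X)) {k : ℕ} (hk0 : k ≠ 0)
    (hk : (k : R) ∈ S.lev h3 N) {i j : ι} (hij : i ≠ j) (s : R) (hs : s ∈ S.lev h3 N) :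
    f ⟨S.x i j s, hs i j hij⟩ = 1 := by
  obtain ⟨i0⟩ := hne
  obtain ⟨j0, hj0, -⟩ := h3 i0 i0
  obtain ⟨l0, hl1, hl2⟩ := h3 i0 j0
  let T : ι → ι → ℕ → Prop := fun p q m => ∀ s ∈ S.lev h3 N, ∀ h : S.x p q (m • s) ∈ N,
    f ⟨S.x p q (m • s), h⟩ = 1
  let Gd : ι → ι → Prop := fun p q => ∃ m : ℕ, m ≠ 0 ∧ T p q m
  have hmk : ∀ (m : ℕ) (s : R), (m • s) * (k : R) = (m * k) • s := by
    intro m s
    rw [mul_comm m k, ← smul_smul, smul_mul_assoc, ← nsmul_eq_mul', smul_smul, smul_smul,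
      mul_comm]
  have hkm : ∀ (m : ℕ) (s : R), (k : R) * (m • s) = (m * k) • s := by
    intro m s
    rw [← nsmul_eq_mul, smul_smul, mul_comm]
  have hlevm : ∀ (m : ℕ) (s : R), s ∈ S.lev h3 N → m • s ∈ S.lev h3 N :=
    fun m s hs => nsmul_mem hs m
  have right : ∀ p q l, p ≠ q → l ≠ p → l ≠ q → Gd p q → Gd p l := by
    rintro p q l hpq hlp hlq ⟨m, hm, hT⟩
    refine ⟨m * k, mul_ne_zero hm hk0, ?_⟩
    intro s hs h
    have e := S.mul p q l hpq hlq.symm hlp.symm (m • s) (k : R)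
    rw [hmk] at e
    exact f_comm_left f (hlevm m s hs p q hpq) (hk q l hlq.symm) h e (hT s hs _)
  have left : ∀ p q l, p ≠ q → l ≠ p → l ≠ q → Gd p q → Gd l q := by
    rintro p q l hpq hlp hlq ⟨m, hm, hT⟩
    refine ⟨m * k, mul_ne_zero hm hk0, ?_⟩
    intro s hs h
    have e := S.mul l p q hlp hpq hlq (k : R) (m • s)
    rw [hkm] at e
    exact f_comm_right f (hk l p hlp) (hlevm m s hs p q hpq) h e (hT s hs _)
  have right' : ∀ p q l, p ≠ q → l ≠ p → Gd p q → Gd p l := by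
    intro p q l hpq hlp hG
    by_cases hlq : l = q
    · rw [hlq]; exact hG
    · exact right p q l hpq hlp hlq hG
  have left' : ∀ p q l, p ≠ q → l ≠ q → Gd p q → Gd l q := by
    intro p q l hpq hlq hG
    by_cases hlp : l = p
    · rw [hlp]; exact hG
    · exact left p q l hpq hlp hlq hG
  obtain ⟨p, q, hpq, h6⟩ := S.six f hk0 (fun i j h => hk i j h) hj0.symm hl2.symm hl1.symm
  obtain ⟨l, hlp, hlq⟩ := h3 p q
  have start : Gd p l := by
    refine ⟨k, hk0, ?_⟩
    intro s' hs' h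
    have e := S.mul p q l hpq hlq.symm hlp.symm (k : R) s'
    rw [← nsmul_eq_mul] at e
    exact f_comm_left f (hk p q hpq) (hs' q l hlq.symm) h e h6
  have all : Gd i j := by
    by_cases hil : i = l
    · obtain ⟨c, hcp, hcl⟩ := h3 p l
      have h1 : Gd p c := right' p l c hlp.symm hcp start
      have h2 : Gd i c := left' p c i hcp.symm (by rw [hil]; exact hcl.symm) h1
      exact right' i c j (by rw [hil]; exact hcl.symm) hij.symm h2
    · have h2 : Gd i l := left' p l i hlp.symm hil start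
      exact right' i l j hil hij.symm h2
  obtain ⟨m, hm, hT⟩ := all
  apply pow_eq_one hm
  rw [← map_pow, ← hT s hs (by
    exact hlevm m s hs i j hij)]
  congr 1
  apply Subtype.ext
  exact (S.x_nsmul hij m s).symm


end StSys

end Pool.ELN
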