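import Pool.Agent.ELN.Idl

/-! # Module Quo (difficulty 2): the quotient system

If `M` is a normal subgroup and `I` a two-sided ideal with `x i j s ∈ M` for all `i ≠ j`, `s ∈ I`,
then `G ⧸ M` has a Steinberg system over `R ⧸ I`: `x̄ i j (r mod I) = x i j r mod M` for `i ≠ j`
(well defined since `x i j (r - s) = x i j r * (x i j s)⁻¹`), and `1` for `i = j`. If `S` generates
`G`, the quotient system generates `G ⧸ M`. -/

set_option autoImplicit false

universe u v w

namespace Pool.ELN

namespace StSys

variable {ι : Type u} {R : Type v} {G : Type w} [Ring R] [Group G] (S : StSys ι R G)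

theorem exists_quo (hS : S.Gen) (M : Subgroup G) [M.Normal] (I : Ideal R) [I.IsTwoSided]
    (hI : ∀ i j, i ≠ j → ∀ s ∈ I, S.x i j s ∈ M) :
    ∃ T : StSys ι (R ⧸ I) (G ⧸ M), T.Gen := by
  have key : ∀ i j, i ≠ j → ∀ r r' : R, (Ideal.Quotient.mk I r) = Ideal.Quotient.mk I r' →
      QuotientGroup.mk' M (S.x i j r) = QuotientGroup.mk' M (S.x i j r') := by
    intro i j hij r r' h
    have h1 : r - r' ∈ I := (Ideal.Quotient.mk_eq_mk_iff_sub_mem _ _).1 h
    have h2 : S.x i j r = S.x i j r' * S.x i j (r - r') := by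
      rw [← S.add i j hij]
      congr 1
      abel
    rw [h2, map_mul]
    have h3 : QuotientGroup.mk' M (S.x i j (r - r')) = 1 := by
      rw [← MonoidHom.mem_ker, QuotientGroup.ker_mk']
      exact hI i j hij _ h1
    rw [h3, mul_one]
  have hout : ∀ q : R ⧸ I, Ideal.Quotient.mk I (Function.surjInv Ideal.Quotient.mk_surjective q)
      = q := fun q => Function.surjInv_eq _ q
  let o : R ⧸ I → R := Function.surjInv Ideal.Quotient.mk_surjective
  have ho : ∀ q, Ideal.Quotient.mk I (o q) = q := hout
  refine ⟨{ x := fun i j q => QuotientGroup.mk' M (S.x i j (o q)), add := ?_, mul := ?_,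
            comm := ?_ }, ?_⟩
  · intro i j hij q q'
    rw [← map_mul, ← S.add i j hij]
    exact key i j hij _ _ (by rw [map_add, ho, ho, ho])
  · intro i j k hij hjk hik q q'
    rw [← map_mul, ← map_inv, ← map_mul, ← map_inv, ← map_mul, S.mul i j k hij hjk hik]
    exact key i k hik _ _ (by rw [map_mul, ho, ho, ho])
  · intro i j k l hij hkl hil hjk q q'
    exact (S.comm i j k l hij hkl hil hjk _ _).map (QuotientGroup.mk' M)
  · unfold Gen at hS ⊢
    rw [eq_top_iff]
    have h1 : Subgroup.map (QuotientGroup.mk' M)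
        (Subgroup.closure {g | ∃ i j r, i ≠ j ∧ g = S.x i j r}) = ⊤ := by
      rw [hS, ← MonoidHom.range_eq_map, MonoidHom.range_eq_top]
      exact QuotientGroup.mk'_surjective M
    rw [← h1, MonoidHom.map_closure]
    refine Subgroup.closure_mono ?_
    rintro _ ⟨_, ⟨i, j, r, hij, rfl⟩, rfl⟩
    exact ⟨i, j, Ideal.Quotient.mk I r, hij, key i j hij _ _ (by rw [ho])⟩

end StSys

end Pool.ELN
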