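import Pool.Agent.ELN.Tw
import Pool.Agent.ELN.Quo
import Pool.Agent.ELN.FinG

/-! # Module Main: assembly -/

set_option autoImplicit false

universe v w t

namespace Pool.ELN

namespace StSys

variable {n : ℕ} {R : Type v} {G : Type w} [Ring R] [Group G] (S : StSys (Fin n) R G)

theorem third (hn : 3 ≤ n) : ∀ i j : Fin n, ∃ k, k ≠ i ∧ k ≠ j := by
  intro i j
  by_contra hc
  push Not at hc
  have h1 : (Finset.univ : Finset (Fin n)) ⊆ {i, j} := by
    intro k _
    rw [Finset.mem_insert, Finset.mem_singleton]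
    by_cases hk : k = i
    · exact Or.inl hk
    · exact Or.inr (hc k hk)
  have h2 := Finset.card_le_card h1
  rw [Finset.card_univ, Fintype.card_fin] at h2
  have h3 : ({i, j} : Finset (Fin n)).card ≤ 2 := Finset.card_le_two
  omega

theorem trivial_order (hn : 3 ≤ n) (hS : S.Gen) (Δ : Subgroup G) [Δ.FiniteIndex] {X : Type t}
    [LinearOrder X] (f : Δ →* (X ≃o X)) : f = 1 := by
  have h3 := third hn
  haveI : Nonempty (Fin n) := ⟨⟨0, by omega⟩⟩
  let N : Subgroup G := Δ.normalCore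
  haveI : N.Normal := Subgroup.normalCore_normal Δ
  haveI : N.FiniteIndex := Subgroup.finiteIndex_normalCore Δ
  have hNΔ : N ≤ Δ := Subgroup.normalCore_le Δ
  let f' : N →* (X ≃o X) := f.comp (Subgroup.inclusion hNΔ)
  have hfin : Finite (R ⧸ S.lev h3 N) := S.lev_finite h3 N
  let M : Subgroup G := S.M h3 N
  haveI : M.Normal := Subgroup.normalClosure_normal
  obtain ⟨T, hT⟩ := S.exists_quo hS M (S.lev h3 N) (by
    intro i j hij s hs
    exact Subgroup.subset_normalClosure ⟨i, j, s, hij, hs, rfl⟩)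
  have hG : Finite (G ⧸ M) := T.finG h3 hT
  ext g : 1
  apply pow_eq_one (m := Nat.card (G ⧸ M)) Nat.card_pos.ne'
  have h1 : (g.1 : G) ^ Nat.card (G ⧸ M) ∈ M := by
    rw [← QuotientGroup.eq_one_iff, QuotientGroup.mk_pow]
    exact pow_card_eq_one'
  have h2 := S.M_trivial h3 N f' _ h1
  rw [← map_pow]
  have h4 : f (g ^ Nat.card (G ⧸ M)) =
      f' ⟨(g.1 : G) ^ Nat.card (G ⧸ M), S.M_le h3 N h1⟩ := rfl
  rw [h4, h2]

end StSys

end Pool.ELN
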