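import Pool.Agent.ELN.SrS

/-! # Module Sr (difficulty 2): finite rings have stable rank one

A finite ring `A` is Artinian, hence semiprimary (`IsSemiprimaryRing`, Mathlib
`RingTheory/Jacobson/Semiprimary.lean`): `A ⧸ Ring.jacobson A` is semisimple and `Ring.jacobson A` is
nilpotent. Apply `sr_semisimple` to the quotient and lift `p`: the image of `a + p * c` is a unit, so
there are `x`, `y` with `x * (a + p * c) ∈ 1 + J` and `(a + p * c) * y ∈ 1 + J`, and `1 + j` is a unit
for `j ∈ J` nilpotent (`IsNilpotent.isUnit_one_add`). -/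

set_option autoImplicit false

universe u

namespace Pool.ELN

theorem sr_finite {A : Type u} [Ring A] [Finite A] {a c u v : A} (h : u * a + v * c = 1) :
    ∃ p : A, IsUnit (a + p * c) := by
  have hart : IsArtinianRing A := inferInstance
  have hsp : IsSemiprimaryRing A := inferInstance
  let π : A →+* A ⧸ Ring.jacobson A := Ideal.Quotient.mk (Ring.jacobson A)
  have hπ : Function.Surjective π := Ideal.Quotient.mk_surjective
  have hfin : Finite (A ⧸ Ring.jacobson A) := Finite.of_surjective π hπ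
  obtain ⟨q, hq⟩ := sr_semisimple (B := A ⧸ Ring.jacobson A) (a := π a) (c := π c) (u := π u)
    (v := π v) (by rw [← map_mul, ← map_mul, ← map_add, h, map_one])
  obtain ⟨p, rfl⟩ := hπ q
  refine ⟨p, ?_⟩
  rw [← map_mul, ← map_add] at hq
  have key : ∀ t : A, π t = 1 → IsUnit t := by
    intro t ht
    have h1 : t - 1 ∈ Ring.jacobson A := by
      rw [← Ideal.Quotient.eq_zero_iff_mem, map_sub, map_one]
      exact sub_eq_zero.2 ht
    have h2 : IsNilpotent (t - 1) := by
      obtain ⟨m, hm⟩ := IsSemiprimaryRing.isNilpotent (R := A)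
      refine ⟨m, ?_⟩
      have h3 : (t - 1) ^ m ∈ Ring.jacobson A ^ m := Ideal.pow_mem_pow h1 m
      rw [hm] at h3
      exact h3
    have h3 := h2.isUnit_one_add
    rwa [add_sub_cancel] at h3
  obtain ⟨⟨x, y, hxy, hyx⟩, hx⟩ := hq
  obtain ⟨y', rfl⟩ := hπ y
  have hx' : x = π (a + p * c) := hx
  rw [hx'] at hxy hyx
  rw [← map_mul] at hxy hyx
  have u1 := key _ hxy
  have u2 := key _ hyx
  rw [isUnit_iff_exists_and_exists]
  constructor
  · obtain ⟨b, hb, -⟩ := isUnit_iff_exists.1 u1
    exact ⟨y' * b, by rw [← mul_assoc]; exact hb⟩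
  · obtain ⟨b, -, hb⟩ := isUnit_iff_exists.1 u2
    exact ⟨b * y', by rw [mul_assoc]; exact hb⟩

end Pool.ELN
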