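import Pool.Agent.ELN.Good
import Pool.Agent.ELN.Sr

/-! # Module Rk (difficulty 3): rank one decomposition

Let `g ∈ S.L i j` and `Good g m` (`exists_good`), `n = m⁻¹`. From `n m = 1`:
`n00 m00 + n01 m10 = 1`, so by `sr_finite` there is `p` with `α = m00 + p m10` a unit. Then
`Good (x i j p * g) (eU p * m)`, whose first column is `(α, m10)`. Let `β` be its (0,1) entry. Then
`h = x j i (-(m10 α⁻¹)) * x i j p * g * x i j (-(α⁻¹ β))` is `Good` for the matrix
`eL (-(m10 α⁻¹)) * eU p * m * eU (-(α⁻¹ β))`, which is diagonal. So `h ∈ S.H` by `diag`, and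
`g = x i j (-p) * x j i (m10 α⁻¹) * (h * x i j (α⁻¹ β) * h⁻¹) * h` and
`h * x i j _ * h⁻¹ = x i j r` by `H_conj`. -/

set_option autoImplicit false

universe u v w

namespace Pool.ELN

namespace StSys

variable {ι : Type u} {A : Type v} {G : Type w} [Ring A] [Group G] (S : StSys ι A G)

theorem rk1 [Finite A] (h3 : ∀ i j : ι, ∃ k, k ≠ i ∧ k ≠ j) {i j : ι} (hij : i ≠ j) {g : G}
    (hg : g ∈ S.L i j) :
    ∃ p q r : A, ∃ h ∈ S.H, g = S.x i j p * S.x j i q * S.x i j r * h := by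
  obtain ⟨m, hm⟩ := S.exists_good hij hg
  have h00 : (m⁻¹).1 0 0 * m.1 0 0 + (m⁻¹).1 0 1 * m.1 1 0 = 1 := by
    have h1 : (m⁻¹).1 * m.1 = 1 := m.inv_mul
    have h2 := congrFun (congrFun h1 0) 0
    rwa [Matrix.mul_apply, Fin.sum_univ_two, Matrix.one_apply_eq] at h2
  obtain ⟨p, hp⟩ := sr_finite h00
  obtain ⟨α, hα⟩ := hp
  have hαi : (α : A) * ((α⁻¹ : Aˣ) : A) = 1 := α.mul_inv
  have hiα : ((α⁻¹ : Aˣ) : A) * (α : A) = 1 := α.inv_mul
  set ai : A := ((α⁻¹ : Aˣ) : A) with hai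
  set β : A := m.1 0 1 + p * m.1 1 1 with hβ
  set q : A := m.1 1 0 * ai with hq
  set s : A := ai * β with hs
  have g1 : S.Good i j (S.x j i (-q) * (S.x i j p * g) * S.x i j (-s))
      (eL (-q) * (eU p * m) * eU (-s)) :=
    S.good_mul hij (S.good_mul hij (S.good_L hij (-q)) (S.good_mul hij (S.good_U hij p) hm))
      (S.good_U hij (-s))
  have e01 : (eL (-q) * (eU p * m) * eU (-s) : (Matrix (Fin 2) (Fin 2) A)ˣ).1 0 1 = 0 := by
    simp only [Units.val_mul, eL, eU, Matrix.mul_apply, Fin.sum_univ_two, Matrix.of_apply,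
      Matrix.cons_val', Matrix.cons_val_zero, Matrix.cons_val_one, Matrix.cons_val_fin_one,
      one_mul, mul_one, zero_mul, mul_zero, zero_add, add_zero]
    rw [← hα, ← hβ, hs, mul_neg, ← mul_assoc, hαi, one_mul]
    abel
  have e10 : (eL (-q) * (eU p * m) * eU (-s) : (Matrix (Fin 2) (Fin 2) A)ˣ).1 1 0 = 0 := by
    simp only [Units.val_mul, eL, eU, Matrix.mul_apply, Fin.sum_univ_two, Matrix.of_apply,
      Matrix.cons_val', Matrix.cons_val_zero, Matrix.cons_val_one, Matrix.cons_val_fin_one,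
      one_mul, mul_one, zero_mul, mul_zero, zero_add, add_zero]
    rw [← hα, hq, neg_mul, mul_assoc, hiα, mul_one]
    abel
  have hH := S.diag h3 hij g1 e01 e10
  set h : G := S.x j i (-q) * (S.x i j p * g) * S.x i j (-s) with hh
  obtain ⟨r, hr⟩ := S.H_conj hij h hH s
  refine ⟨-p, q, r, h, hH, ?_⟩
  have hr2 : S.x i j r * h = h * S.x i j s := by
    rw [← hr]
    group
  rw [mul_assoc, hr2, hh, S.x_neg hij, S.x_neg hij, S.x_neg hij.symm]
  group

end StSys

end Pool.ELN
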