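import Mathlib

/-! # Module SrS (difficulty 4): semisimple finite rings have stable rank one

Let `B` be a finite semisimple ring and `u * a + v * c = 1`. Claim: `a + p * c` is a unit for some
`p`.

Proof A (modules). Consider left `B`-modules. Let `ra : B → B`, `x ↦ x * a` and `rc : x ↦ x * c`
(linear maps of the left module `B`). `range ra ⊔ range rc = ⊤`. Let `K = ker ra`, `C` a complement
of `K` (semisimple: `ComplementedLattice`), so `ra` is injective on `C` and `ra(C) = range ra`. Let
`D` be a complement of `range ra ⊓ range rc` inside `range rc`; then `range ra ⊕ D = ⊤`. So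
`|K| * |C| = |B| = |range ra| * |D|` and `|C| = |range ra|`; moreover `K × C ≃ₗ B ≃ₗ range ra × D` and
`C ≃ₗ range ra`. Cancellation for finite modules (Lovász): `K ≃ₗ D`. Indeed for every finite module
`Y`: `|Hom(Y, K)| * |Hom(Y, C)| = |Hom(Y, B)| = |Hom(Y, D)| * |Hom(Y, C)|`, so
`|Hom(Y, K)| = |Hom(Y, D)|` for every finite `Y`; as `|Hom(Y, K)| = ∑ over submodules Z of Y of
|Inj(Y / Z, K)|`, by strong induction on `|Y|`, `|Inj(Y, K)| = |Inj(Y, D)|`; with `Y = K` there is an
injective linear map `K → D`, bijective since `|K| = |D|`. Let `φ : K ≃ₗ D`. As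
`rc : B → range rc ∋ D` is surjective and `B` is semisimple (or `K` is projective), there is a linear
`ψ : K → B` with `rc (ψ x) = φ x` (a linear section of `rc` onto its range:
`Submodule.exists_isCompl` for `ker rc`). Extend `ψ` by `0` on `C` to `B = K ⊕ C → B`; it is
`x ↦ x * p` with `p = ψ' 1`. Then `x ↦ x * (a + p * c)` is `x ↦ ra x` on `C` and `φ` on `K`, so it is
injective (`range ra ⊓ D = ⊥`), so `a + p * c` is a unit (finite ring: injective = bijective right
multiplication; `IsUnit` from `x * (a + p c) = 1` and Dedekind-finiteness of finite rings).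

Proof B (Wedderburn): `B` is a finite product of matrix rings over division rings
(`IsSemisimpleRing.exists_ringEquiv_pi_matrix_divisionRing`), the claim passes to finite products and
along ring isomorphisms, and for `Matrix n n D` it is linear algebra as in Proof A (with dimensions
instead of the counting argument). Any proof is welcome. -/

set_option autoImplicit false

universe u

namespace Pool.ELN

private theorem SrS_step {B : Type u} [Ring B] [Finite B] [IsSemisimpleRing B] {a c u v : B}
    (h : u * a + v * c = 1) (hK : LinearMap.ker (LinearMap.toSpanSingleton B B a) ≠ ⊥) :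
    ∃ p : B, LinearMap.ker (LinearMap.toSpanSingleton B B (a + p * c)) <
      LinearMap.ker (LinearMap.toSpanSingleton B B a) := by
  classical
  set ra : B →ₗ[B] B := LinearMap.toSpanSingleton B B a with hra
  set rc : B →ₗ[B] B := LinearMap.toSpanSingleton B B c with hrc
  have hraa : ∀ x, ra x = x * a := fun x => rfl
  have hrcc : ∀ x, rc x = x * c := fun x => rfl
  obtain ⟨S, hS, hSK⟩ := (eq_bot_or_exists_atom_le (LinearMap.ker ra)).resolve_left hK
  have hsimple : IsSimpleModule B S := isSimpleModule_iff_isAtom.2 hS
  have hproj : Module.Projective B S := Module.projective_of_isSemisimpleRing B S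
  have hfin : Finite (S →ₗ[B] B) :=
    Finite.of_injective (fun f => (f : S → B)) DFunLike.coe_injective
  -- a homomorphism which does not lift
  obtain ⟨g, hg⟩ : ∃ g : S →ₗ[B] B, ∀ f : S →ₗ[B] B, ra ∘ₗ f ≠ g := by
    by_contra hcon
    push Not at hcon
    have hsurj : Function.Surjective (fun f : S →ₗ[B] B => ra ∘ₗ f) := hcon
    have hinj := Finite.injective_iff_surjective.2 hsurj
    have h0 : S.subtype = 0 := by
      apply hinj
      change ra ∘ₗ S.subtype = ra ∘ₗ 0
      ext x
      rw [LinearMap.comp_zero, LinearMap.zero_apply]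
      exact hSK x.2
    apply hS.1
    rw [← Submodule.range_subtype S, h0, LinearMap.range_zero]
  let Q := B ⧸ LinearMap.range ra
  let q : B →ₗ[B] Q := (LinearMap.range ra).mkQ
  have hqra : ∀ x, q (ra x) = 0 := by
    intro x
    rw [Submodule.mkQ_apply, Submodule.Quotient.mk_eq_zero]
    exact ⟨x, rfl⟩
  have hsurj : Function.Surjective (q ∘ₗ rc) := by
    intro y
    obtain ⟨y, rfl⟩ := Submodule.mkQ_surjective _ y
    refine ⟨y * v, ?_⟩
    have h1 : y = ra (y * u) + rc (y * v) := by
      rw [hraa, hrcc, mul_assoc, mul_assoc, ← mul_add, h, mul_one]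
    change q (rc (y * v)) = q y
    conv_rhs => rw [h1, map_add, hqra, zero_add]
  have hne : q ∘ₗ g ≠ 0 := by
    intro h0
    have h1 : ∀ x, g x ∈ LinearMap.range ra := by
      intro x
      have h2 := LinearMap.congr_fun h0 x
      change q (g x) = 0 at h2
      rwa [Submodule.mkQ_apply, Submodule.Quotient.mk_eq_zero] at h2
    obtain ⟨f, hf⟩ := Module.projective_lifting_property ra.rangeRestrict
      (g.codRestrict (LinearMap.range ra) h1) ra.surjective_rangeRestrict
    apply hg f
    ext x
    have h3 := LinearMap.congr_fun hf x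
    exact congrArg Subtype.val h3
  have hinj : Function.Injective (q ∘ₗ g) := (LinearMap.injective_or_eq_zero _).resolve_right hne
  obtain ⟨ψ, hψ⟩ := Module.projective_lifting_property (q ∘ₗ rc) (q ∘ₗ g) hsurj
  obtain ⟨T, hT⟩ := exists_isCompl S
  let π : B →ₗ[B] S := Submodule.projectionOnto S T hT
  have hπ : ∀ x : S, π x = x := fun x => Submodule.projectionOnto_apply_left hT x
  have hψπ : ∀ x : B, ψ (π x) = x * ψ (π 1) := by
    intro x
    have h1 : π x = x • π 1 := by rw [← map_smul, smul_eq_mul, mul_one]
    rw [h1, map_smul, smul_eq_mul]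
  refine ⟨ψ (π 1), ?_⟩
  have hker : ∀ x, x ∈ LinearMap.ker (LinearMap.toSpanSingleton B B (a + ψ (π 1) * c)) ↔
      x ∈ LinearMap.ker ra ∧ π x = 0 := by
    intro x
    have h1 : LinearMap.toSpanSingleton B B (a + ψ (π 1) * c) x = ra x + rc (ψ (π x)) := by
      rw [hraa, hrcc, hψπ x]
      change x * (a + ψ (π 1) * c) = _
      rw [mul_add, mul_assoc]
    rw [LinearMap.mem_ker, LinearMap.mem_ker, h1]
    constructor
    · intro h2
      have h3 : q (rc (ψ (π x))) = 0 := by
        have h4 := congrArg q h2
        rwa [map_add, hqra, zero_add, map_zero] at h4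
      have h4 : (q ∘ₗ g) (π x) = 0 := by
        rw [← hψ]
        exact h3
      have h5 : π x = 0 := by
        apply hinj
        rw [h4, map_zero]
      refine ⟨?_, h5⟩
      rwa [h5, map_zero, map_zero, add_zero] at h2
    · rintro ⟨h2, h3⟩
      rw [h2, h3, map_zero, map_zero, add_zero]
  refine lt_of_le_of_ne (fun x hx => ((hker x).1 hx).1) ?_
  intro heq
  apply hS.1
  rw [eq_bot_iff]
  intro x hx
  have h1 : x ∈ LinearMap.ker (LinearMap.toSpanSingleton B B (a + ψ (π 1) * c)) := by
    rw [heq]
    exact hSK hx
  have h2 := ((hker x).1 h1).2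
  have h3 := hπ ⟨x, hx⟩
  change π x = ⟨x, hx⟩ at h3
  rw [h2] at h3
  have h4 := congrArg Subtype.val h3
  rw [Submodule.mem_bot]
  exact h4.symm

private theorem SrS_unit {B : Type u} [Ring B] [Finite B] {a : B}
    (hK : LinearMap.ker (LinearMap.toSpanSingleton B B a) = ⊥) : IsUnit a := by
  have hinj : Function.Injective (LinearMap.toSpanSingleton B B a) := LinearMap.ker_eq_bot.1 hK
  obtain ⟨x, hx⟩ := Finite.surjective_of_injective hinj 1
  have hx' : x * a = 1 := hx
  have hx2 : a * x = 1 := by
    apply hinj
    change a * x * a = 1 * a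
    rw [mul_assoc, hx', mul_one, one_mul]
  exact ⟨⟨a, x, hx2, hx'⟩, rfl⟩

theorem sr_semisimple {B : Type u} [Ring B] [Finite B] [IsSemisimpleRing B] {a c u v : B}
    (h : u * a + v * c = 1) : ∃ p : B, IsUnit (a + p * c) := by
  have main : ∀ (n : ℕ) (a u v : B), u * a + v * c = 1 →
      Nat.card (LinearMap.ker (LinearMap.toSpanSingleton B B a)) = n →
      ∃ p : B, IsUnit (a + p * c) := by
    intro n
    induction n using Nat.strong_induction_on with
    | _ n ih =>
    intro a u v h hn
    by_cases hK : LinearMap.ker (LinearMap.toSpanSingleton B B a) = ⊥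
    · refine ⟨0, ?_⟩
      rw [zero_mul, add_zero]
      exact SrS_unit hK
    · obtain ⟨p, hp⟩ := SrS_step h hK
      have hlt : Nat.card (LinearMap.ker (LinearMap.toSpanSingleton B B (a + p * c))) < n := by
        rw [← hn]
        change Set.ncard (LinearMap.ker (LinearMap.toSpanSingleton B B (a + p * c)) : Set B) <
          Set.ncard (LinearMap.ker (LinearMap.toSpanSingleton B B a) : Set B)
        exact Set.ncard_lt_ncard hp (Set.toFinite _)
      obtain ⟨p', hp'⟩ := ih _ hlt (a + p * c) u (v - u * p) (by
        rw [← h]; noncomm_ring) rfl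
      refine ⟨p + p', ?_⟩
      rwa [add_mul, ← add_assoc]
  exact main _ a u v h rfl

end Pool.ELN
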