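import Pool.Agent.ELN.Ker

/-! # Module Tw (difficulty 2): the normal closure of the root elements of level `lev N` acts
trivially

`M` is the normal closure in `G` of all `x i j s`, `i ≠ j`, `s ∈ lev N`. As `N` is normal, `M ≤ N`.
For `g ∈ G` apply `ker_all` to the twisted action `n ↦ f (g n g⁻¹)`: so `f (g x g⁻¹) = 1` for all
conjugates of the generators; the elements of `N` in the kernel of `f` that ... form a subgroup, and
`M` is generated by the conjugates (`Subgroup.normalClosure` is the closure of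
`Group.conjugatesOfSet`). The number `k`: `R ⧸ lev N` is finite, so its cardinality `k` satisfies
`(k : R) ∈ lev N` (`k • 1 = 0` in the finite additive group of the quotient; `k ≠ 0`). -/

set_option autoImplicit false

universe u v w t

namespace Pool.ELN

namespace StSys

variable {ι : Type u} {R : Type v} {G : Type w} [Ring R] [Group G] (S : StSys ι R G)

/-- the normal closure of the root elements with parameters in the level ideal -/
def M (h3 : ∀ i j : ι, ∃ k, k ≠ i ∧ k ≠ j) (N : Subgroup G) [N.Normal] : Subgroup G :=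
  Subgroup.normalClosure {g | ∃ i j s, i ≠ j ∧ s ∈ S.lev h3 N ∧ g = S.x i j s}

theorem M_le (h3 : ∀ i j : ι, ∃ k, k ≠ i ∧ k ≠ j) (N : Subgroup G) [N.Normal] :
    S.M h3 N ≤ N := by
  refine Subgroup.normalClosure_le_normal ?_
  rintro g ⟨i, j, s, hij, hs, rfl⟩
  exact hs i j hij

theorem M_trivial [Finite ι] [Nonempty ι] (h3 : ∀ i j : ι, ∃ k, k ≠ i ∧ k ≠ j) (N : Subgroup G)
    [N.Normal] [N.FiniteIndex] {X : Type t} [LinearOrder X] (f : N →* (X ≃o X)) (g : G)
    (hg : g ∈ S.M h3 N) : f ⟨g, S.M_le h3 N hg⟩ = 1 := by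
  have hfin := S.lev_finite h3 N
  have hk : ((Nat.card (R ⧸ S.lev h3 N) : ℕ) : R) ∈ S.lev h3 N := by
    have h1 : Nat.card (R ⧸ S.lev h3 N) • ((S.lev h3 N).mkQ (1 : R)) = 0 := card_nsmul_eq_zero'
    rw [← map_nsmul, nsmul_one] at h1
    exact (Submodule.Quotient.mk_eq_zero _).1 h1
  have hk0 : Nat.card (R ⧸ S.lev h3 N) ≠ 0 := Nat.card_pos.ne'
  have hle : S.M h3 N ≤ f.ker.map N.subtype := by
    unfold M Subgroup.normalClosure
    rw [Subgroup.closure_le]
    intro y hy
    obtain ⟨a, ⟨i, j, s, hij, hs, rfl⟩, hc⟩ := Group.mem_conjugatesOfSet_iff.1 hy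
    obtain ⟨c, hc⟩ := isConj_iff.1 hc
    have h1 := S.ker_all h3 inferInstance N (f.comp (MulAut.conjNormal c).toMonoidHom) hk0 hk
      hij s hs
    refine ⟨MulAut.conjNormal c ⟨S.x i j s, hs i j hij⟩, ?_, ?_⟩
    · exact h1
    · rw [← hc]
      exact MulAut.conjNormal_apply c _
  obtain ⟨y, hy, hyg⟩ := hle hg
  have h2 : (⟨g, S.M_le h3 N hg⟩ : N) = y := Subtype.ext hyg.symm
  rw [h2]
  exact hy

end StSys

end Pool.ELN
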