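import Pool.Agent.ELN.Bas

/-! # Module UV (difficulty 3): the unipotent subgroups and a simple root

`i`, `j` consecutive (`j = i + 1`). `U'` = closure of the root elements `x k l` with `k < l`,
`(k, l) ≠ (i, j)`. Conjugation by `x i j b` and by `x j i b` maps the generators of `U'` into `U'`
(hence maps `U'` into itself; apply to `b` and `-b` for equality, only inclusion is needed):
`x j i b`, `x i l c` (`l > j`): `x j l (b c) * x i l c`; `x k j c` (`k < i`) ↦ `x k i (∓ c b) * x k j c`;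
otherwise commute. `x i j b`: `x j l c ↦ x i l (b c) * x j l c`; `x k i c ↦ x k j (∓ c b) * x k i c`;
otherwise commute. So every element of `U` is `x i j a * u'` with `u' ∈ U'` (the set of these products
contains the generators and is closed under multiplication and inverses), and `H` normalizes `U`,
`V`, `U'`, `V'`. The statements for `V`, `V'` are symmetric. -/

set_option autoImplicit false

universe v w

namespace Pool.ELN

/-- elements which map a subgroup into itself, in both directions -/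
private def uvN {G : Type w} [Group G] (K : Subgroup G) : Subgroup G where
  carrier := {g | (∀ u ∈ K, g * u * g⁻¹ ∈ K) ∧ ∀ u ∈ K, g⁻¹ * u * g ∈ K}
  one_mem' := ⟨fun u hu => by simpa using hu, fun u hu => by simpa using hu⟩
  mul_mem' := by
    rintro a b ⟨ha, ha'⟩ ⟨hb, hb'⟩
    refine ⟨fun u hu => ?_, fun u hu => ?_⟩
    · have := ha _ (hb u hu)
      have e : a * b * u * (a * b)⁻¹ = a * (b * u * b⁻¹) * a⁻¹ := by group
      rwa [e]
    · have := hb' _ (ha' u hu)
      have e : (a * b)⁻¹ * u * (a * b) = b⁻¹ * (a⁻¹ * u * a) * b := by group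
      rwa [e]
  inv_mem' := by
    rintro a ⟨ha, ha'⟩
    refine ⟨fun u hu => ?_, fun u hu => ?_⟩
    · simpa using ha' u hu
    · simpa using ha u hu

private theorem uv_closure {G : Type w} [Group G] {s : Set G} {K : Subgroup G} {g : G}
    (h : ∀ x ∈ s, g * x * g⁻¹ ∈ K) {u : G} (hu : u ∈ Subgroup.closure s) : g * u * g⁻¹ ∈ K := by
  induction hu using Subgroup.closure_induction with
  | mem x hx => exact h x hx
  | one => simp [K.one_mem]
  | mul a b _ _ ha hb =>
    have e : g * (a * b) * g⁻¹ = (g * a * g⁻¹) * (g * b * g⁻¹) := by group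
    rw [e]; exact K.mul_mem ha hb
  | inv a _ ha =>
    have e : g * a⁻¹ * g⁻¹ = (g * a * g⁻¹)⁻¹ := by group
    rw [e]; exact K.inv_mem ha

namespace StSys

variable {n : ℕ} {A : Type v} {G : Type w} [Ring A] [Group G] (S : StSys (Fin n) A G)

/-- it is enough to treat the root elements -/
private theorem uv_L {i j : Fin n} (hne : i ≠ j) {K : Subgroup G} {s : Set G}
    (hK : K = Subgroup.closure s) (h1 : ∀ b, ∀ x ∈ s, S.x i j b * x * (S.x i j b)⁻¹ ∈ K)
    (h2 : ∀ b, ∀ x ∈ s, S.x j i b * x * (S.x j i b)⁻¹ ∈ K) {g : G} (hg : g ∈ S.L i j) {u : G}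
    (hu : u ∈ K) : g * u * g⁻¹ ∈ K := by
  have hle : S.L i j ≤ uvN K := by
    unfold L
    apply sup_le
    · unfold X
      rw [Subgroup.closure_le]
      rintro _ ⟨r, rfl⟩
      refine ⟨fun u hu => uv_closure (h1 r) (hK ▸ hu), fun u hu => ?_⟩
      have := uv_closure (h1 (-r)) (hK ▸ hu : u ∈ Subgroup.closure s)
      rw [S.x_neg hne, inv_inv] at this
      exact this
    · unfold X
      rw [Subgroup.closure_le]
      rintro _ ⟨r, rfl⟩
      refine ⟨fun u hu => uv_closure (h2 r) (hK ▸ hu), fun u hu => ?_⟩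
      have := uv_closure (h2 (-r)) (hK ▸ hu : u ∈ Subgroup.closure s)
      rw [S.x_neg hne.symm, inv_inv] at this
      exact this
  exact (hle hg).1 u hu

private theorem uv_memU' {i j k l : Fin n} (h : k < l) (h' : ¬ (k = i ∧ l = j)) (r : A) :
    S.x k l r ∈ S.U' i j := Subgroup.subset_closure ⟨k, l, r, h, h', rfl⟩

private theorem uv_memV' {i j k l : Fin n} (h : l < k) (h' : ¬ (k = j ∧ l = i)) (r : A) :
    S.x k l r ∈ S.V' i j := Subgroup.subset_closure ⟨k, l, r, h, h', rfl⟩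

theorem U'_conj {i j : Fin n} (hij : i.val + 1 = j.val) {g : G} (hg : g ∈ S.L i j) {u : G}
    (hu : u ∈ S.U' i j) : g * u * g⁻¹ ∈ S.U' i j := by
  have hlt : i < j := by rw [Fin.lt_def]; omega
  refine S.uv_L hlt.ne rfl ?_ ?_ hg hu
  · rintro b _ ⟨k, l, c, hkl, hne, rfl⟩
    by_cases h1 : j = k
    · subst h1
      rw [S.conj1 hlt.ne hkl.ne (hlt.trans hkl).ne]
      exact Subgroup.mul_mem _ (S.uv_memU' (hlt.trans hkl) (fun h => hkl.ne' h.2) _)
        (S.uv_memU' hkl (fun h => hlt.ne' h.1) _)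
    · by_cases h2 : i = l
      · subst h2
        rw [S.conj2 hkl.ne hlt.ne (hkl.trans hlt).ne]
        exact Subgroup.mul_mem _ (S.uv_memU' (hkl.trans hlt) (fun h => hkl.ne h.1) _)
          (S.uv_memU' hkl (fun h => hlt.ne h.2) _)
      · rw [S.conj3 hlt.ne hkl.ne h2 h1]
        exact S.uv_memU' hkl hne _
  · rintro b _ ⟨k, l, c, hkl, hne, rfl⟩
    by_cases h1 : i = k
    · subst h1
      have hlj : l ≠ j := fun h => hne ⟨rfl, h⟩
      have hjl : j < l := by
        have h3 := Fin.lt_def.1 hkl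
        have h4 : l.val ≠ j.val := fun h => hlj (Fin.ext h)
        rw [Fin.lt_def]; omega
      rw [S.conj1 hlt.ne' hkl.ne hjl.ne]
      exact Subgroup.mul_mem _ (S.uv_memU' hjl (fun h => hlt.ne' h.1) _)
        (S.uv_memU' hkl hne _)
    · by_cases h2 : j = l
      · subst h2
        have hki : k < i := by
          have h3 := Fin.lt_def.1 hkl
          have h4 : i.val ≠ k.val := fun h => h1 (Fin.ext h)
          rw [Fin.lt_def]; omega
        rw [S.conj2 hkl.ne hlt.ne' hki.ne]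
        exact Subgroup.mul_mem _ (S.uv_memU' hki (fun h => hlt.ne h.2) _)
          (S.uv_memU' hkl hne _)
      · rw [S.conj3 hlt.ne' hkl.ne h2 h1]
        exact S.uv_memU' hkl hne _

theorem V'_conj {i j : Fin n} (hij : i.val + 1 = j.val) {g : G} (hg : g ∈ S.L i j) {u : G}
    (hu : u ∈ S.V' i j) : g * u * g⁻¹ ∈ S.V' i j := by
  have hlt : i < j := by rw [Fin.lt_def]; omega
  refine S.uv_L hlt.ne rfl ?_ ?_ hg hu
  · rintro b _ ⟨k, l, c, hkl, hne, rfl⟩
    by_cases h1 : j = k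
    · subst h1
      have hli : l < i := by
        have h3 := Fin.lt_def.1 hkl
        have h4 : l.val ≠ i.val := fun h => hne ⟨rfl, Fin.ext h⟩
        rw [Fin.lt_def]; omega
      rw [S.conj1 hlt.ne hkl.ne' hli.ne']
      exact Subgroup.mul_mem _ (S.uv_memV' hli (fun h => hlt.ne h.1) _)
        (S.uv_memV' hkl hne _)
    · by_cases h2 : i = l
      · subst h2
        have hjk : j < k := by
          have h3 := Fin.lt_def.1 hkl
          have h4 : j.val ≠ k.val := fun h => h1 (Fin.ext h)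
          rw [Fin.lt_def]; omega
        rw [S.conj2 hkl.ne' hlt.ne hjk.ne']
        exact Subgroup.mul_mem _ (S.uv_memV' hjk (fun h => hlt.ne' h.2) _)
          (S.uv_memV' hkl hne _)
      · rw [S.conj3 hlt.ne hkl.ne' h2 h1]
        exact S.uv_memV' hkl hne _
  · rintro b _ ⟨k, l, c, hkl, hne, rfl⟩
    by_cases h1 : i = k
    · subst h1
      rw [S.conj1 hlt.ne' hkl.ne' (hkl.trans hlt).ne']
      exact Subgroup.mul_mem _ (S.uv_memV' (hkl.trans hlt) (fun h => hkl.ne h.2) _)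
        (S.uv_memV' hkl (fun h => hlt.ne h.1) _)
    · by_cases h2 : j = l
      · subst h2
        rw [S.conj2 hkl.ne' hlt.ne' (hlt.trans hkl).ne']
        exact Subgroup.mul_mem _ (S.uv_memV' (hlt.trans hkl) (fun h => hkl.ne' h.1) _)
          (S.uv_memV' hkl (fun h => hlt.ne' h.2) _)
      · rw [S.conj3 hlt.ne' hkl.ne' h2 h1]
        exact S.uv_memV' hkl hne _

private theorem uv_memL1 (i j : Fin n) (r : A) : S.x i j r ∈ S.L i j :=
  Subgroup.mem_sup_left (S.x_mem_X i j r)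

private theorem uv_memL2 (i j : Fin n) (r : A) : S.x j i r ∈ S.L i j :=
  Subgroup.mem_sup_right (S.x_mem_X j i r)

theorem U_split {i j : Fin n} (hij : i.val + 1 = j.val) {g : G} (hg : g ∈ S.U) :
    ∃ u ∈ S.U' i j, ∃ a, g = u * S.x i j a := by
  have hlt : i < j := by rw [Fin.lt_def]; omega
  induction hg using Subgroup.closure_induction with
  | mem x hx =>
    obtain ⟨k, l, r, hkl, rfl⟩ := hx
    by_cases h : k = i ∧ l = j
    · obtain ⟨rfl, rfl⟩ := h
      exact ⟨1, Subgroup.one_mem _, r, (one_mul _).symm⟩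
    · exact ⟨S.x k l r, S.uv_memU' hkl h r, 0, by rw [S.x_zero hlt.ne, mul_one]⟩
  | one => exact ⟨1, Subgroup.one_mem _, 0, by rw [S.x_zero hlt.ne, mul_one]⟩
  | mul a b _ _ ha hb =>
    obtain ⟨u1, h1, a1, rfl⟩ := ha
    obtain ⟨u2, h2, a2, rfl⟩ := hb
    refine ⟨u1 * (S.x i j a1 * u2 * (S.x i j a1)⁻¹),
      Subgroup.mul_mem _ h1 (S.U'_conj hij (S.uv_memL1 i j a1) h2), a1 + a2, ?_⟩
    rw [S.add i j hlt.ne]
    group
  | inv a _ ha =>
    obtain ⟨u1, h1, a1, rfl⟩ := ha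
    refine ⟨S.x i j (-a1) * u1⁻¹ * (S.x i j (-a1))⁻¹,
      S.U'_conj hij (S.uv_memL1 i j (-a1)) (Subgroup.inv_mem _ h1), -a1, ?_⟩
    rw [S.x_neg hlt.ne]
    group

theorem V_split {i j : Fin n} (hij : i.val + 1 = j.val) {g : G} (hg : g ∈ S.V) :
    ∃ a, ∃ v ∈ S.V' i j, g = S.x j i a * v := by
  have hlt : i < j := by rw [Fin.lt_def]; omega
  induction hg using Subgroup.closure_induction with
  | mem x hx =>
    obtain ⟨k, l, r, hkl, rfl⟩ := hx
    by_cases h : k = j ∧ l = i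
    · obtain ⟨rfl, rfl⟩ := h
      exact ⟨r, 1, Subgroup.one_mem _, (mul_one _).symm⟩
    · exact ⟨0, S.x k l r, S.uv_memV' hkl h r, by rw [S.x_zero hlt.ne', one_mul]⟩
  | one => exact ⟨0, 1, Subgroup.one_mem _, by rw [S.x_zero hlt.ne', one_mul]⟩
  | mul a b _ _ ha hb =>
    obtain ⟨a1, u1, h1, rfl⟩ := ha
    obtain ⟨a2, u2, h2, rfl⟩ := hb
    refine ⟨a1 + a2, S.x j i (-a2) * u1 * (S.x j i (-a2))⁻¹ * u2,
      Subgroup.mul_mem _ (S.V'_conj hij (S.uv_memL2 i j (-a2)) h1) h2, ?_⟩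
    rw [S.add j i hlt.ne', S.x_neg hlt.ne']
    group
  | inv a _ ha =>
    obtain ⟨a1, u1, h1, rfl⟩ := ha
    refine ⟨-a1, S.x j i a1 * u1⁻¹ * (S.x j i a1)⁻¹,
      S.V'_conj hij (S.uv_memL2 i j a1) (Subgroup.inv_mem _ h1), ?_⟩
    rw [S.x_neg hlt.ne']
    group

theorem U'_le (i j : Fin n) : S.U' i j ≤ S.U := by
  apply Subgroup.closure_mono
  rintro _ ⟨k, l, r, h, _, rfl⟩
  exact ⟨k, l, r, h, rfl⟩

theorem V'_le (i j : Fin n) : S.V' i j ≤ S.V := by
  apply Subgroup.closure_mono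
  rintro _ ⟨k, l, r, h, _, rfl⟩
  exact ⟨k, l, r, h, rfl⟩

theorem H_conj_U {h : G} (hh : h ∈ S.H) {u : G} (hu : u ∈ S.U) : h * u * h⁻¹ ∈ S.U := by
  refine uv_closure ?_ hu
  rintro _ ⟨k, l, r, hkl, rfl⟩
  obtain ⟨s, hs⟩ := S.H_conj hkl.ne h hh r
  rw [hs]
  exact Subgroup.subset_closure ⟨k, l, s, hkl, rfl⟩

theorem H_conj_V {h : G} (hh : h ∈ S.H) {u : G} (hu : u ∈ S.V) : h * u * h⁻¹ ∈ S.V := by
  refine uv_closure ?_ hu
  rintro _ ⟨k, l, r, hkl, rfl⟩
  obtain ⟨s, hs⟩ := S.H_conj hkl.ne' h hh r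
  rw [hs]
  exact Subgroup.subset_closure ⟨k, l, s, hkl, rfl⟩

theorem H_conj_V' {i j : Fin n} {h : G} (hh : h ∈ S.H) {u : G} (hu : u ∈ S.V' i j) :
    h * u * h⁻¹ ∈ S.V' i j := by
  refine uv_closure ?_ hu
  rintro _ ⟨k, l, r, hkl, hne, rfl⟩
  obtain ⟨s, hs⟩ := S.H_conj hkl.ne' h hh r
  rw [hs]
  exact S.uv_memV' hkl hne s

end StSys

end Pool.ELN
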