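import Pool.Agent.ELN.UV
import Pool.Agent.ELN.Rk

/-! # Module Uvu (difficulty 3): `G = U V U H`

Let `P` be the set of all `u * v * w * h` (`u, w ∈ U`, `v ∈ V`, `h ∈ H`). `P` is closed under left
multiplication by `U`. Claim: `P` is closed under left multiplication by `x j i b`, `j = i + 1`:
`x j i b * u v w h`, `u = u' * x i j a` (`u' ∈ U'`), `v = x j i c * v'`:
`= (x j i b u' (x j i b)⁻¹) * (x j i b * x i j a * x j i c) * v' * w * h`. By `U'_conj` the first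
factor is in `U' ≤ U`; by `rk1` the second factor (in `L i j`) is
`x i j p * x j i q * x i j r * h1`, `h1 ∈ H`; `h1 v' = v'' h1` with `v'' ∈ V'` (`H_conj_V'`),
`x i j r * v'' = v''' * x i j r` with `v''' ∈ V'` (`V'_conj`), `h1 * w = w' * h1` with `w' ∈ U`. So
the product is `[u1 * x i j p] * [x j i q * v'''] * [x i j r * w'] * [h1 * h] ∈ P`.
Hence `P` is closed under left multiplication by the subgroup generated by all `x j i b`
(`j = i + 1`), which contains all `x k l b` with `l < k` (induction on `k - l`: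
`x k l b = [x k (k-1) b, x (k-1) l 1]`), and by `U`; so by all generators of `G` and `P = G`
(closure induction, `1 ∈ P`; the inverse of a generator is a generator). -/

set_option autoImplicit false

universe v w

namespace Pool.ELN

namespace StSys

variable {n : ℕ} {A : Type v} {G : Type w} [Ring A] [Group G] (S : StSys (Fin n) A G)

private def UvuP : Set G :=
  {g | ∃ u ∈ S.U, ∃ v ∈ S.V, ∃ w ∈ S.U, ∃ h ∈ S.H, g = u * v * w * h}

private theorem Uvu_U {i j : Fin n} (h : i < j) (r : A) : S.x i j r ∈ S.U :=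
  Subgroup.subset_closure ⟨i, j, r, h, rfl⟩

private theorem Uvu_V {i j : Fin n} (h : j < i) (r : A) : S.x i j r ∈ S.V :=
  Subgroup.subset_closure ⟨i, j, r, h, rfl⟩

private theorem Uvu_mulU {u0 g : G} (hu0 : u0 ∈ S.U) (hg : g ∈ S.UvuP) : u0 * g ∈ S.UvuP := by
  obtain ⟨u, hu, v, hv, w, hw, h, hh, rfl⟩ := hg
  exact ⟨u0 * u, S.U.mul_mem hu0 hu, v, hv, w, hw, h, hh, by group⟩

private theorem Uvu_step [Finite A] (h3 : ∀ i j : Fin n, ∃ k, k ≠ i ∧ k ≠ j) {i j : Fin n}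
    (hij : i.val + 1 = j.val) (b : A) {g : G} (hg : g ∈ S.UvuP) : S.x j i b * g ∈ S.UvuP := by
  have hlt : i < j := by
    rw [Fin.lt_def]
    omega
  have hne : i ≠ j := hlt.ne
  obtain ⟨u, hu, v, hv, w, hw, h, hh, rfl⟩ := hg
  obtain ⟨u', hu', a, rfl⟩ := S.U_split hij hu
  obtain ⟨c, v', hv', rfl⟩ := S.V_split hij hv
  have hB : S.x j i b ∈ S.L i j := Subgroup.mem_sup_right (S.x_mem_X j i b)
  have h1 : S.x j i b * u' * (S.x j i b)⁻¹ ∈ S.U' i j := S.U'_conj hij hB hu'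
  have h2 : S.x j i b * S.x i j a * S.x j i c ∈ S.L i j :=
    (S.L i j).mul_mem ((S.L i j).mul_mem hB (Subgroup.mem_sup_left (S.x_mem_X i j a)))
      (Subgroup.mem_sup_right (S.x_mem_X j i c))
  obtain ⟨p, q, r, h₁, hh₁, hrk⟩ := S.rk1 h3 hne h2
  have h4 : h₁ * v' * h₁⁻¹ ∈ S.V' i j := S.H_conj_V' hh₁ hv'
  have h5 : S.x i j r * (h₁ * v' * h₁⁻¹) * (S.x i j r)⁻¹ ∈ S.V' i j :=
    S.V'_conj hij (Subgroup.mem_sup_left (S.x_mem_X i j r)) h4
  have h6 : h₁ * w * h₁⁻¹ ∈ S.U := S.H_conj_U hh₁ hw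
  refine ⟨(S.x j i b * u' * (S.x j i b)⁻¹) * S.x i j p,
    S.U.mul_mem (S.U'_le i j h1) (S.Uvu_U hlt p),
    S.x j i q * (S.x i j r * (h₁ * v' * h₁⁻¹) * (S.x i j r)⁻¹),
    S.V.mul_mem (S.Uvu_V hlt q) (S.V'_le i j h5),
    S.x i j r * (h₁ * w * h₁⁻¹), S.U.mul_mem (S.Uvu_U hlt r) h6,
    h₁ * h, S.H.mul_mem hh₁ hh, ?_⟩
  have h7 : S.x j i b * (u' * S.x i j a * (S.x j i c * v') * w * h) =
      (S.x j i b * u' * (S.x j i b)⁻¹) * (S.x j i b * S.x i j a * S.x j i c) * v' * w * h := by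
    group
  rw [h7, hrk]
  group

private theorem Uvu_low [Finite A] (h3 : ∀ i j : Fin n, ∃ k, k ≠ i ∧ k ≠ j) (m : ℕ) :
    ∀ (k l : Fin n), l.val + m + 1 = k.val → ∀ (b : A) (g : G), g ∈ S.UvuP →
      S.x k l b * g ∈ S.UvuP := by
  induction m with
  | zero =>
    intro k l hkl b g hg
    exact S.Uvu_step h3 (by omega) b hg
  | succ m ih =>
    intro k l hkl b g hg
    have hk := k.isLt
    let q : Fin n := ⟨k.val - 1, by omega⟩
    have hq : q.val = k.val - 1 := rfl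
    have hkq : k ≠ q := fun h => by
      have := congrArg Fin.val h
      omega
    have hql : q ≠ l := fun h => by
      have := congrArg Fin.val h
      omega
    have hkl' : k ≠ l := fun h => by
      have := congrArg Fin.val h
      omega
    have h1 := S.mul k q l hkq hql hkl' b 1
    rw [mul_one, ← S.x_neg hkq, ← S.x_neg hql] at h1
    rw [← h1]
    have s1 : ∀ (c : A) (g : G), g ∈ S.UvuP → S.x k q c * g ∈ S.UvuP := fun c g hg =>
      S.Uvu_step h3 (by omega) c hg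
    have s2 : ∀ (c : A) (g : G), g ∈ S.UvuP → S.x q l c * g ∈ S.UvuP := fun c g hg =>
      ih q l (by omega) c g hg
    rw [mul_assoc, mul_assoc, mul_assoc]
    exact s1 _ _ (s2 _ _ (s1 _ _ (s2 _ _ hg)))

private theorem Uvu_all [Finite A] (h3 : ∀ i j : Fin n, ∃ k, k ≠ i ∧ k ≠ j) {i j : Fin n}
    (hij : i ≠ j) (b : A) {g : G} (hg : g ∈ S.UvuP) : S.x i j b * g ∈ S.UvuP := by
  rcases lt_or_gt_of_ne hij with h | h
  · exact S.Uvu_mulU (S.Uvu_U h b) hg
  · have h' : j.val < i.val := h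
    exact S.Uvu_low h3 (i.val - j.val - 1) i j (by omega) b g hg

theorem uvuh [Finite A] (h3 : ∀ i j : Fin n, ∃ k, k ≠ i ∧ k ≠ j) (hS : S.Gen) (g : G) :
    ∃ u ∈ S.U, ∃ v ∈ S.V, ∃ w ∈ S.U, ∃ h ∈ S.H, g = u * v * w * h := by
  have key : ∀ y : G, (∀ g ∈ S.UvuP, y * g ∈ S.UvuP) ∧ ∀ g ∈ S.UvuP, y⁻¹ * g ∈ S.UvuP := by
    intro y
    have hy : y ∈ Subgroup.closure {g | ∃ i j r, i ≠ j ∧ g = S.x i j r} := by
      rw [show Subgroup.closure {g | ∃ i j r, i ≠ j ∧ g = S.x i j r} = ⊤ from hS]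
      exact Subgroup.mem_top y
    induction hy using Subgroup.closure_induction with
    | mem x hx =>
      obtain ⟨i, j, r, hij, rfl⟩ := hx
      refine ⟨fun g hg => S.Uvu_all h3 hij r hg, fun g hg => ?_⟩
      rw [← S.x_neg hij]
      exact S.Uvu_all h3 hij _ hg
    | one =>
      refine ⟨fun g hg => ?_, fun g hg => ?_⟩
      · rw [one_mul]; exact hg
      · rw [inv_one, one_mul]; exact hg
    | mul a b _ _ ha hb =>
      refine ⟨fun g hg => ?_, fun g hg => ?_⟩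
      · rw [mul_assoc]; exact ha.1 _ (hb.1 _ hg)
      · rw [mul_inv_rev, mul_assoc]; exact hb.2 _ (ha.2 _ hg)
    | inv a _ ha =>
      refine ⟨ha.2, fun g hg => ?_⟩
      rw [inv_inv]
      exact ha.1 g hg
  have h1 : (1 : G) ∈ S.UvuP := ⟨1, S.U.one_mem, 1, S.V.one_mem, 1, S.U.one_mem, 1,
    S.H.one_mem, by group⟩
  have h2 := (key g).1 1 h1
  rw [mul_one] at h2
  exact h2

end StSys

end Pool.ELN
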